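import Mathlib
import Pool.Agent.N757.SZ.Down2
import Pool.Agent.N757.OC.Fwd

/-!
# Szpiro's inequality and the radical of `x ^ p - y ^ q`: the weighted inequalities
-/

set_option autoImplicit false

namespace Pool.Agent.N757.SC

open Finset Pool.Agent.N757.SZ

/-- `(a b c) ^ l c ^ (1 - 3 l)` -/
noncomputable def P (l : ℝ) (a b c : ℕ) : ℝ := ((a * b * c : ℕ) : ℝ) ^ l * (c : ℝ) ^ (1 - 3 * l)

/-- the weighted abc inequality -/
def SL (l : ℝ) : Prop :=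
  ∀ ε : ℝ, 0 < ε → ∃ κ : ℝ, 0 < κ ∧ ∀ a b c : ℕ, 0 < a → 0 < b → a.Coprime b → a + b = c →
    κ * P l a b c * (c : ℝ) ^ (-ε) ≤ rad (a * b * c)

/-- the weighted inequality for `x ^ p - y ^ q` -/
def OneCuspS (l : ℝ) (p q N : ℕ) : Prop :=
  ∀ ε : ℝ, 0 < ε → ∃ κ : ℝ, 0 < κ ∧ ∀ x y : ℤ, IsCoprime x y → x ^ p ≠ y ^ q →
    (N : ℤ) ∣ x ^ p - y ^ q →
    κ * (|(x : ℝ) ^ p - (y : ℝ) ^ q| ^ l *
      (max (|(x : ℝ)| ^ p) (|(y : ℝ)| ^ q)) ^ (1 - 1 / (p : ℝ) - 1 / (q : ℝ) - l - ε)) ≤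
      rad (x ^ p - y ^ q).natAbs

theorem P_pos {l : ℝ} {a b c : ℕ} (ha : 0 < a) (hb : 0 < b) (hc : 0 < c) : 0 < P l a b c := by
  unfold P
  have h1 : (0 : ℝ) < ((a * b * c : ℕ) : ℝ) := by exact_mod_cast Nat.mul_pos (Nat.mul_pos ha hb) hc
  have h2 : (0 : ℝ) < (c : ℝ) := by exact_mod_cast hc
  positivity

theorem P_six {l θ : ℝ} (hl : 6 * l = 1 - θ) {a b c : ℕ} :
    P l a b c ^ (6 : ℝ) = ((a * b * c : ℕ) : ℝ) ^ (1 - θ) * (c : ℝ) ^ (3 + 3 * θ) := by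
  unfold P
  rw [Real.mul_rpow (by positivity) (by positivity), ← Real.rpow_mul (by positivity),
    ← Real.rpow_mul (by positivity)]
  congr 2 <;> linarith

theorem P_ge {l : ℝ} (h0 : 0 ≤ l) (h6 : l ≤ 1 / 6) {a b c : ℕ} (ha : 0 < a) (hb : 0 < b) (hc : 0 < c) :
    (c : ℝ) ^ (1 / 2 : ℝ) ≤ P l a b c := by
  unfold P
  have hc1 : (1 : ℝ) ≤ c := by exact_mod_cast hc
  have h1 : (c : ℝ) ≤ ((a * b * c : ℕ) : ℝ) := by
    exact_mod_cast Nat.le_mul_of_pos_left c (Nat.mul_pos ha hb)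
  calc (c : ℝ) ^ (1 / 2 : ℝ) ≤ (c : ℝ) ^ (l + (1 - 3 * l)) :=
        Real.rpow_le_rpow_of_exponent_le hc1 (by linarith)
    _ = (c : ℝ) ^ l * (c : ℝ) ^ (1 - 3 * l) := Real.rpow_add (by linarith) _ _
    _ ≤ _ := mul_le_mul_of_nonneg_right (Real.rpow_le_rpow (by linarith) h1 h0) (by positivity)

theorem P_le {l : ℝ} (h0 : 0 ≤ l) {a b c : ℕ} (hc : 0 < c) (hac : a ≤ c) (hbc : b ≤ c) :
    P l a b c ≤ c := by
  unfold P
  have hc0 : (0 : ℝ) < c := by exact_mod_cast hc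
  have h1 : ((a * b * c : ℕ) : ℝ) ≤ (c : ℝ) ^ (3 : ℕ) := by
    have : a * b * c ≤ c ^ 3 := by
      calc a * b * c ≤ c * c * c := Nat.mul_le_mul_right _ (Nat.mul_le_mul hac hbc)
        _ = c ^ 3 := by ring
    exact_mod_cast this
  calc ((a * b * c : ℕ) : ℝ) ^ l * (c : ℝ) ^ (1 - 3 * l)
      ≤ ((c : ℝ) ^ (3 : ℕ)) ^ l * (c : ℝ) ^ (1 - 3 * l) :=
        mul_le_mul_of_nonneg_right (Real.rpow_le_rpow (by positivity) h1 h0) (by positivity)
    _ = c := by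
        rw [← Real.rpow_natCast, ← Real.rpow_mul hc0.le, ← Real.rpow_add hc0]
        push_cast
        rw [show (3 : ℝ) * l + (1 - 3 * l) = 1 by ring, Real.rpow_one]

theorem SL_to_AbcT {l θ : ℝ} (h0 : 0 ≤ l) (h6 : l ≤ 1 / 6) (hl : 6 * l = 1 - θ) (h : SL l) :
    AbcT θ := by
  intro ε hε
  obtain ⟨κ, hκ0, hκ⟩ := h (ε / (2 * (6 + ε))) (by positivity)
  refine ⟨(κ⁻¹) ^ (6 + ε), ?_⟩
  intro a b ha hb hab
  have hc : 0 < a + b := by omega
  rw [← P_six hl (a := a) (b := b) (c := a + b)]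
  have h1 := hκ a b (a + b) ha hb hab rfl
  have hP0 := P_pos (l := l) ha hb hc
  have hP1 := P_ge h0 h6 ha hb hc
  set p := P l a b (a + b) with hp
  have hc1 : (1 : ℝ) ≤ ((a + b : ℕ) : ℝ) := by exact_mod_cast hc
  have hc0 : (0 : ℝ) < ((a + b : ℕ) : ℝ) := by linarith
  have hR0 : (0 : ℝ) < rad (a * b * (a + b)) := by exact_mod_cast rad_pos _
  have h2 : p ^ (-(ε / (6 + ε))) ≤ ((a + b : ℕ) : ℝ) ^ (-(ε / (2 * (6 + ε)))) := by
    have h3 : (((a + b : ℕ) : ℝ) ^ (1 / 2 : ℝ)) ^ (ε / (6 + ε)) ≤ p ^ (ε / (6 + ε)) :=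
      Real.rpow_le_rpow (by positivity) hP1 (by positivity)
    rw [← Real.rpow_mul hc0.le] at h3
    rw [Real.rpow_neg hP0.le, Real.rpow_neg hc0.le]
    apply inv_anti₀ (by positivity)
    refine le_trans (le_of_eq ?_) h3
    congr 1
    field_simp
  have h4 : κ * p ^ (6 / (6 + ε)) ≤ rad (a * b * (a + b)) := by
    refine le_trans ?_ h1
    rw [mul_assoc]
    apply mul_le_mul_of_nonneg_left _ hκ0.le
    calc p ^ (6 / (6 + ε)) = p * p ^ (-(ε / (6 + ε))) := by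
          nth_rewrite 2 [← Real.rpow_one p]
          rw [← Real.rpow_add hP0]
          congr 1
          field_simp
          ring
      _ ≤ p * ((a + b : ℕ) : ℝ) ^ (-(ε / (2 * (6 + ε)))) := mul_le_mul_of_nonneg_left h2 hP0.le
  have h5 : p ^ (6 / (6 + ε)) ≤ κ⁻¹ * rad (a * b * (a + b)) := by
    rw [← div_eq_inv_mul, le_div_iff₀ hκ0, mul_comm]; exact h4
  calc p ^ (6 : ℝ) = (p ^ (6 / (6 + ε))) ^ (6 + ε) := by
        rw [← Real.rpow_mul hP0.le, div_mul_cancel₀ _ (by positivity)]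
    _ ≤ (κ⁻¹ * rad (a * b * (a + b))) ^ (6 + ε) := Real.rpow_le_rpow (by positivity) h5 (by positivity)
    _ = _ := Real.mul_rpow (by positivity) hR0.le

theorem AbcT_to_SL {l θ : ℝ} (h0 : 0 ≤ l) (hl : 6 * l = 1 - θ) (h : AbcT θ) : SL l := by
  intro ε hε
  obtain ⟨K₀, hK₀⟩ := h (6 * ε) (by positivity)
  set K : ℝ := max K₀ 1 with hK
  have hK1 : 1 ≤ K := le_max_right _ _
  refine ⟨(K ^ (1 / (6 + 6 * ε)))⁻¹, by positivity, ?_⟩
  intro a b c ha hb hab habc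
  subst habc
  have hc : 0 < a + b := by omega
  have h1 := hK₀ a b ha hb hab
  rw [← P_six hl (a := a) (b := b) (c := a + b)] at h1
  have hP0 := P_pos (l := l) ha hb hc
  have hP1 := P_le h0 hc (Nat.le_add_right a b) (Nat.le_add_left b a)
  set p := P l a b (a + b) with hp
  have hc1 : (1 : ℝ) ≤ ((a + b : ℕ) : ℝ) := by exact_mod_cast hc
  have hc0 : (0 : ℝ) < ((a + b : ℕ) : ℝ) := by linarith
  have hR0 : (0 : ℝ) < rad (a * b * (a + b)) := by exact_mod_cast rad_pos _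
  have h2 : p ^ (6 : ℝ) ≤ K * (rad (a * b * (a + b)) : ℝ) ^ (6 + 6 * ε) :=
    h1.trans (mul_le_mul_of_nonneg_right (le_max_left _ _) (by positivity))
  have h3 : p ^ (1 / (1 + ε)) ≤ K ^ (1 / (6 + 6 * ε)) * rad (a * b * (a + b)) := by
    have h4 := Real.rpow_le_rpow (by positivity) h2 (show (0 : ℝ) ≤ 1 / (6 + 6 * ε) by positivity)
    rw [Real.mul_rpow (by positivity) (by positivity), ← Real.rpow_mul hP0.le,
      ← Real.rpow_mul hR0.le, mul_one_div_cancel (by positivity), Real.rpow_one] at h4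
    refine le_trans (le_of_eq ?_) h4
    congr 1
    field_simp
  have h4 : p * ((a + b : ℕ) : ℝ) ^ (-ε) ≤ p ^ (1 / (1 + ε)) := by
    have h5 : ((a + b : ℕ) : ℝ) ^ (-ε) ≤ p ^ (-(ε / (1 + ε))) := by
      rw [Real.rpow_neg hP0.le, Real.rpow_neg hc0.le]
      apply inv_anti₀ (by positivity)
      calc p ^ (ε / (1 + ε)) ≤ ((a + b : ℕ) : ℝ) ^ (ε / (1 + ε)) :=
            Real.rpow_le_rpow hP0.le hP1 (by positivity)
        _ ≤ _ := by
            apply Real.rpow_le_rpow_of_exponent_le hc1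
            rw [div_le_iff₀ (by positivity)]
            nlinarith
    calc p * ((a + b : ℕ) : ℝ) ^ (-ε) ≤ p * p ^ (-(ε / (1 + ε))) :=
          mul_le_mul_of_nonneg_left h5 hP0.le
      _ = p ^ (1 / (1 + ε)) := by
          nth_rewrite 1 [← Real.rpow_one p]
          rw [← Real.rpow_add hP0]
          congr 1
          field_simp
          ring
  rw [mul_assoc, inv_mul_le_iff₀ (by positivity)]
  exact h4.trans h3

/-- **From the weighted inequality to the difference of powers.** -/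
theorem SL_to_oneCuspS {l : ℝ} (h0 : 0 ≤ l) (h6 : l ≤ 1 / 6) (p q N : ℕ) (hp : 1 ≤ p) (hq : 1 ≤ q)
    (hp6 : p ≤ 6) (hq6 : q ≤ 6) (h : SL l) : OneCuspS l p q N := by
  intro ε hε
  obtain ⟨κ₀, hκ₀0, hκ₀⟩ := h ε hε
  set κ : ℝ := min κ₀ 1 with hκd
  have hκ0 : 0 < κ := lt_min hκ₀0 one_pos
  have hκ1 : κ ≤ 1 := min_le_right _ _
  refine ⟨κ * 2 ^ (-ε), by positivity, ?_⟩
  intro x y hxy hne _
  set M : ℝ := max (|(x : ℝ)| ^ p) (|(y : ℝ)| ^ q) with hM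
  set F : ℤ := x ^ p - y ^ q with hF
  have hFR : (F : ℝ) = (x : ℝ) ^ p - (y : ℝ) ^ q := by rw [hF]; push_cast; ring
  rw [← hFR]
  have hF0 : F ≠ 0 := sub_ne_zero.2 hne
  have hR : (1 : ℝ) ≤ rad F.natAbs := by exact_mod_cast rad_pos _
  have h2ε : (2 : ℝ) ^ (-ε) ≤ 1 := by
    rw [Real.rpow_neg (by norm_num)]
    exact inv_le_one_of_one_le₀ (Real.one_le_rpow (by norm_num) hε.le)
  have hF1 : (1 : ℝ) ≤ |(F : ℝ)| := by exact_mod_cast Int.one_le_abs hF0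
  have triv : M = 1 → |(F : ℝ)| = 1 → κ * 2 ^ (-ε) * (|(F : ℝ)| ^ l *
      M ^ (1 - 1 / (p : ℝ) - 1 / (q : ℝ) - l - ε)) ≤ rad F.natAbs := by
    intro e1 e2
    rw [e1, e2, Real.one_rpow, Real.one_rpow, mul_one, mul_one]
    calc κ * 2 ^ (-ε) ≤ 1 * 1 := mul_le_mul hκ1 h2ε (by positivity) (by norm_num)
      _ ≤ _ := by linarith
  by_cases hx0 : x = 0
  · have hy1 : |y| = 1 := by
      rw [hx0, isCoprime_zero_left] at hxy
      exact Int.isUnit_iff_abs_eq.1 hxy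
    have hy1' : |(y : ℝ)| = 1 := by exact_mod_cast hy1
    apply triv
    · rw [hM, hy1', hx0]
      simp [zero_pow (show p ≠ 0 by omega)]
    · rw [hFR, hx0]
      simp [zero_pow (show p ≠ 0 by omega), hy1']
  by_cases hy0 : y = 0
  · have hx1 : |x| = 1 := by
      rw [hy0, isCoprime_zero_right] at hxy
      exact Int.isUnit_iff_abs_eq.1 hxy
    have hx1' : |(x : ℝ)| = 1 := by exact_mod_cast hx1
    apply triv
    · rw [hM, hx1', hy0]
      simp [zero_pow (show q ≠ 0 by omega)]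
    · rw [hFR, hy0]
      simp [zero_pow (show q ≠ 0 by omega), hx1']
  have hx1 : (1 : ℝ) ≤ |(x : ℝ)| := by exact_mod_cast Int.one_le_abs hx0
  have hy1 : (1 : ℝ) ≤ |(y : ℝ)| := by exact_mod_cast Int.one_le_abs hy0
  have hM1 : 1 ≤ M := le_max_of_le_left (one_le_pow₀ hx1)
  have hM0 : 0 < M := by linarith
  have hpx : (0 : ℝ) < p := by exact_mod_cast hp
  have hqx : (0 : ℝ) < q := by exact_mod_cast hq
  have hp6' : (p : ℝ) ≤ 6 := by exact_mod_cast hp6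
  have hq6' : (q : ℝ) ≤ 6 := by exact_mod_cast hq6
  -- the triple of natural numbers
  have hcop : IsCoprime F (y ^ q) := by
    have h1 : IsCoprime (x ^ p) (y ^ q) := hxy.pow
    have h2 := h1.add_mul_right_left (-1)
    have h3 : x ^ p + -1 * y ^ q = F := by rw [hF]; ring
    rwa [h3] at h2
  have hcop2 : IsCoprime F (x ^ p) := by
    have := hcop.add_mul_left_right 1
    rwa [show y ^ q + F * 1 = x ^ p by rw [hF]; ring] at this
  have hcop3 : IsCoprime (y ^ q) (x ^ p) := hxy.symm.pow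
  have f0 : 0 < F.natAbs := Int.natAbs_pos.2 hF0
  have u0 : 0 < (x ^ p).natAbs := Int.natAbs_pos.2 (pow_ne_zero _ hx0)
  have v0 : 0 < (y ^ q).natAbs := Int.natAbs_pos.2 (pow_ne_zero _ hy0)
  have eF : (F.natAbs : ℝ) = |(F : ℝ)| := by rw [Nat.cast_natAbs, Int.cast_abs]
  have eu : ((x ^ p).natAbs : ℝ) = |(x : ℝ)| ^ p := by
    rw [Nat.cast_natAbs, Int.cast_abs]; push_cast; rw [abs_pow]
  have ev : ((y ^ q).natAbs : ℝ) = |(y : ℝ)| ^ q := by
    rw [Nat.cast_natAbs, Int.cast_abs]; push_cast; rw [abs_pow]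
  have key : ∃ c : ℕ, 0 < c ∧ M ≤ c ∧ (c : ℝ) ≤ 2 * M ∧
      κ * (((F.natAbs * (x ^ p).natAbs * (y ^ q).natAbs : ℕ) : ℝ) ^ l * (c : ℝ) ^ (1 - 3 * l)) *
        (c : ℝ) ^ (-ε) ≤ rad (F.natAbs * (x ^ p).natAbs * (y ^ q).natAbs) := by
    have huM : ((x ^ p).natAbs : ℝ) ≤ M := by rw [eu]; exact le_max_left _ _
    have hvM : ((y ^ q).natAbs : ℝ) ≤ M := by rw [ev]; exact le_max_right _ _
    have gen : ∀ a b c : ℕ, 0 < a → 0 < b → a.Coprime b → a + b = c →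
        κ * P l a b c * (c : ℝ) ^ (-ε) ≤ rad (a * b * c) := by
      intro a b c ha hb hab habc
      have hc : 0 < c := by omega
      refine le_trans ?_ (hκ₀ a b c ha hb hab habc)
      apply mul_le_mul_of_nonneg_right _ (by positivity)
      exact mul_le_mul_of_nonneg_right (min_le_left _ _) (P_pos ha hb hc).le
    have hMM : M = ((x ^ p).natAbs : ℝ) ∨ M = ((y ^ q).natAbs : ℝ) := by
      rw [eu, ev, hM]
      rcases le_total (|(x : ℝ)| ^ p) (|(y : ℝ)| ^ q) with h | h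
      · right; rw [max_eq_right h]
      · left; rw [max_eq_left h]
    have hFe : F + y ^ q = x ^ p := by rw [hF]; ring
    rcases (by omega : F.natAbs + (y ^ q).natAbs = (x ^ p).natAbs ∨
        F.natAbs + (x ^ p).natAbs = (y ^ q).natAbs ∨
        (x ^ p).natAbs + (y ^ q).natAbs = F.natAbs) with h1 | h1 | h1
    · have h2 : ((y ^ q).natAbs : ℝ) ≤ ((x ^ p).natAbs : ℝ) := by
        exact_mod_cast (by omega : (y ^ q).natAbs ≤ (x ^ p).natAbs)
      have h3 : M = ((x ^ p).natAbs : ℝ) := by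
        rcases hMM with h | h <;> linarith
      refine ⟨(x ^ p).natAbs, u0, h3.le, by linarith, ?_⟩
      have h4 := gen _ _ _ f0 v0 (Pool.Agent.N757.OC.natAbs_coprime hcop) h1
      unfold P at h4
      rwa [show F.natAbs * (x ^ p).natAbs * (y ^ q).natAbs =
        F.natAbs * (y ^ q).natAbs * (x ^ p).natAbs by ring]
    · have h2 : ((x ^ p).natAbs : ℝ) ≤ ((y ^ q).natAbs : ℝ) := by
        exact_mod_cast (by omega : (x ^ p).natAbs ≤ (y ^ q).natAbs)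
      have h3 : M = ((y ^ q).natAbs : ℝ) := by
        rcases hMM with h | h <;> linarith
      refine ⟨(y ^ q).natAbs, v0, h3.le, by linarith, ?_⟩
      have h4 := gen _ _ _ f0 u0 (Pool.Agent.N757.OC.natAbs_coprime hcop2) h1
      unfold P at h4
      exact h4
    · have h2 : ((F.natAbs : ℕ) : ℝ) = ((x ^ p).natAbs : ℝ) + ((y ^ q).natAbs : ℝ) := by
        exact_mod_cast h1.symm
      have hu' : (0 : ℝ) < ((x ^ p).natAbs : ℝ) := by exact_mod_cast u0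
      have hv' : (0 : ℝ) < ((y ^ q).natAbs : ℝ) := by exact_mod_cast v0
      refine ⟨F.natAbs, f0, ?_, by linarith, ?_⟩
      · rcases hMM with h | h <;> linarith
      have h4 := gen _ _ _ u0 v0 (Pool.Agent.N757.OC.natAbs_coprime hcop3.symm) h1
      unfold P at h4
      rwa [show F.natAbs * (x ^ p).natAbs * (y ^ q).natAbs =
        (x ^ p).natAbs * (y ^ q).natAbs * F.natAbs by ring]
  obtain ⟨c, hc0, hMc, hcM, hkey⟩ := key
  have hcR : (0 : ℝ) < c := by exact_mod_cast hc0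
  -- the radical of the product
  have hrad : (rad (F.natAbs * (x ^ p).natAbs * (y ^ q).natAbs) : ℝ) ≤
      rad F.natAbs * (|(x : ℝ)| * |(y : ℝ)|) := by
    have h2 : rad (F.natAbs * (x ^ p).natAbs * (y ^ q).natAbs) ≤
        rad F.natAbs * (x.natAbs * y.natAbs) := by
      apply Pool.Agent.N757.OC.R_bound f0.ne'
        (mul_ne_zero (Int.natAbs_ne_zero.2 hx0) (Int.natAbs_ne_zero.2 hy0))
      intro ℓ hℓ hd
      rw [Int.natAbs_pow, Int.natAbs_pow] at hd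
      rcases (Nat.Prime.dvd_mul hℓ).1 hd with h | h
      · rcases (Nat.Prime.dvd_mul hℓ).1 h with h | h
        · exact h.mul_right _
        · exact ((hℓ.dvd_of_dvd_pow h).mul_right _).mul_left _
      · exact ((hℓ.dvd_of_dvd_pow h).mul_left _).mul_left _
    have e1 : |(x : ℝ)| = (x.natAbs : ℝ) := by rw [Nat.cast_natAbs, Int.cast_abs]
    have e2 : |(y : ℝ)| = (y.natAbs : ℝ) := by rw [Nat.cast_natAbs, Int.cast_abs]
    rw [e1, e2]
    exact_mod_cast h2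
  have hx0' : (0 : ℝ) < |(x : ℝ)| := by linarith
  have hy0' : (0 : ℝ) < |(y : ℝ)| := by linarith
  have hF0' : (0 : ℝ) < |(F : ℝ)| := by linarith
  -- lower bounds
  have hxl : M ^ (l - 1 / (p : ℝ)) ≤ |(x : ℝ)| ^ (p * l - 1) := by
    have h1 : |(x : ℝ)| ≤ M ^ (1 / (p : ℝ)) :=
      Pool.Agent.N757.OC.le_rpow_inv hx0'.le hp (le_max_left _ _)
    have h2 : (M ^ (1 / (p : ℝ))) ^ (p * l - 1) ≤ |(x : ℝ)| ^ (p * l - 1) :=
      Real.rpow_le_rpow_of_nonpos hx0' h1 (by nlinarith)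
    refine le_trans (le_of_eq ?_) h2
    rw [← Real.rpow_mul hM0.le]
    congr 1
    field_simp
  have hyl : M ^ (l - 1 / (q : ℝ)) ≤ |(y : ℝ)| ^ (q * l - 1) := by
    have h1 : |(y : ℝ)| ≤ M ^ (1 / (q : ℝ)) :=
      Pool.Agent.N757.OC.le_rpow_inv hy0'.le hq (le_max_right _ _)
    have h2 : (M ^ (1 / (q : ℝ))) ^ (q * l - 1) ≤ |(y : ℝ)| ^ (q * l - 1) :=
      Real.rpow_le_rpow_of_nonpos hy0' h1 (by nlinarith)
    refine le_trans (le_of_eq ?_) h2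
    rw [← Real.rpow_mul hM0.le]
    congr 1
    field_simp
  have hsplit : ((F.natAbs * (x ^ p).natAbs * (y ^ q).natAbs : ℕ) : ℝ) ^ l =
      |(F : ℝ)| ^ l * (|(x : ℝ)| ^ (p * l - 1) * |(x : ℝ)|) * (|(y : ℝ)| ^ (q * l - 1) * |(y : ℝ)|) := by
    push_cast [Nat.cast_mul]
    have e1 : |(x : ℝ)| ^ (p * l - 1) * |(x : ℝ)| = (|(x : ℝ)| ^ p) ^ l := by
      rw [← Real.rpow_natCast, ← Real.rpow_mul hx0'.le]
      nth_rewrite 2 [← Real.rpow_one |(x : ℝ)|]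
      rw [← Real.rpow_add hx0']
      congr 1; ring
    have e2 : |(y : ℝ)| ^ (q * l - 1) * |(y : ℝ)| = (|(y : ℝ)| ^ q) ^ l := by
      rw [← Real.rpow_natCast, ← Real.rpow_mul hy0'.le]
      nth_rewrite 2 [← Real.rpow_one |(y : ℝ)|]
      rw [← Real.rpow_add hy0']
      congr 1; ring
    rw [e1, e2, ← Real.mul_rpow (by positivity) (by positivity),
      ← Real.mul_rpow (by positivity) (by positivity)]
    rw [eF, eu, ev]
  have hcl : M ^ (1 - 3 * l) ≤ (c : ℝ) ^ (1 - 3 * l) :=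
    Real.rpow_le_rpow hM0.le hMc (by linarith)
  have hce : 2 ^ (-ε) * M ^ (-ε) ≤ (c : ℝ) ^ (-ε) := by
    rw [← Real.mul_rpow (by norm_num) hM0.le]
    exact Real.rpow_le_rpow_of_nonpos hcR hcM (by linarith)
  have hfin : (κ * 2 ^ (-ε) * (|(F : ℝ)| ^ l * M ^ (1 - 1 / (p : ℝ) - 1 / (q : ℝ) - l - ε))) *
      (|(x : ℝ)| * |(y : ℝ)|) ≤ rad F.natAbs * (|(x : ℝ)| * |(y : ℝ)|) := by
    refine le_trans ?_ (hkey.trans hrad)
    rw [hsplit]
    have e1 : M ^ (1 - 1 / (p : ℝ) - 1 / (q : ℝ) - l - ε) =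
        M ^ (l - 1 / (p : ℝ)) * M ^ (l - 1 / (q : ℝ)) * M ^ (1 - 3 * l) * M ^ (-ε) := by
      rw [← Real.rpow_add hM0, ← Real.rpow_add hM0, ← Real.rpow_add hM0]
      congr 1; ring
    rw [e1]
    calc κ * 2 ^ (-ε) * (|(F : ℝ)| ^ l * (M ^ (l - 1 / (p : ℝ)) * M ^ (l - 1 / (q : ℝ)) *
          M ^ (1 - 3 * l) * M ^ (-ε))) * (|(x : ℝ)| * |(y : ℝ)|)
        = κ * (|(F : ℝ)| ^ l * (M ^ (l - 1 / (p : ℝ)) * |(x : ℝ)|) * (M ^ (l - 1 / (q : ℝ)) * |(y : ℝ)|) *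
          M ^ (1 - 3 * l)) * (2 ^ (-ε) * M ^ (-ε)) := by ring
      _ ≤ κ * (|(F : ℝ)| ^ l * (|(x : ℝ)| ^ (p * l - 1) * |(x : ℝ)|) *
          (|(y : ℝ)| ^ (q * l - 1) * |(y : ℝ)|) * (c : ℝ) ^ (1 - 3 * l)) * (c : ℝ) ^ (-ε) := by
          gcongr
  exact le_of_mul_le_mul_right hfin (by positivity)

end Pool.Agent.N757.SC
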