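import Mathlib
import Pool.Agent.N757.SC.Base

/-!
# Szpiro's inequality and the radical of `x ^ p - y ^ q`: multiples and the bridge
-/

set_option autoImplicit false

namespace Pool.Agent.N757.SC

open Finset Pool.Agent.N757.SZ

theorem M_one {x y : ℤ} {p q : ℕ} (hxy : IsCoprime x y) :
    1 ≤ max (|(x : ℝ)| ^ p) (|(y : ℝ)| ^ q) := by
  by_cases hx0 : x = 0
  · have hy0 : y ≠ 0 := by
      rintro rfl
      rw [hx0, isCoprime_self] at hxy
      exact not_isUnit_zero hxy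
    exact le_max_of_le_right (one_le_pow₀ (by exact_mod_cast Int.one_le_abs hy0))
  · exact le_max_of_le_left (one_le_pow₀ (by exact_mod_cast Int.one_le_abs hx0))

/-- the inequality for `(p m, q m)` implies the one for `(p, q)` -/
theorem oneCuspS_mul {l : ℝ} (h0 : 0 ≤ l) (h1 : l ≤ 1) (m p q N : ℕ) (hm : 1 ≤ m) (hp : 1 ≤ p)
    (hq : 1 ≤ q) (h : OneCuspS l (p * m) (q * m) N) : OneCuspS l p q N := by
  intro ε hε
  have hm0 : (0 : ℝ) < m := by exact_mod_cast hm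
  have hm1 : (1 : ℝ) ≤ m := by exact_mod_cast hm
  obtain ⟨κ, hκ0, hκ⟩ := h (ε / m) (by positivity)
  refine ⟨min (κ / m) 1, lt_min (by positivity) one_pos, ?_⟩
  intro x y hxy hne hN
  set M : ℝ := max (|(x : ℝ)| ^ p) (|(y : ℝ)| ^ q) with hM
  set F : ℤ := x ^ p - y ^ q with hF
  have hFR : (F : ℝ) = (x : ℝ) ^ p - (y : ℝ) ^ q := by rw [hF]; push_cast; ring
  rw [← hFR]
  have hF0 : F ≠ 0 := sub_ne_zero.2 hne
  have hF1 : (1 : ℝ) ≤ |(F : ℝ)| := by exact_mod_cast Int.one_le_abs hF0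
  have hR : (1 : ℝ) ≤ rad F.natAbs := by exact_mod_cast rad_pos _
  have hM1 : 1 ≤ M := M_one hxy
  have hM0 : 0 < M := by linarith
  by_cases hne' : x ^ (p * m) = y ^ (q * m)
  · have h1 : |x| ^ (p * m) = |y| ^ (q * m) := by rw [← abs_pow, ← abs_pow, hne']
    have h2 : |x| = 1 := Pool.Agent.N757.OC.abs_eq_one_of (Nat.mul_pos hp hm) hxy h1
    have h3 : |y| = 1 := Pool.Agent.N757.OC.abs_eq_one_of (Nat.mul_pos hq hm) hxy.symm h1.symm
    have h4 : |(x : ℝ)| = 1 := by exact_mod_cast h2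
    have h5 : |(y : ℝ)| = 1 := by exact_mod_cast h3
    have h6 : M = 1 := by rw [hM, h4, h5, one_pow, one_pow, max_self]
    have h7 : |(F : ℝ)| ≤ 2 := by
      rw [hFR]
      calc |(x : ℝ) ^ p - (y : ℝ) ^ q| ≤ |(x : ℝ) ^ p| + |(y : ℝ) ^ q| := abs_sub _ _
        _ = 2 := by rw [abs_pow, abs_pow, h4, h5, one_pow, one_pow]; norm_num
    -- `F = ±2`, radical 2
    have h8 : F.natAbs = 1 ∨ F.natAbs = 2 := by
      have h9 : |F| ≤ 2 := by exact_mod_cast h7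
      have h10 : 1 ≤ |F| := Int.one_le_abs hF0
      rw [Int.abs_eq_natAbs] at h9 h10
      omega
    have h9 : |(F : ℝ)| ≤ rad F.natAbs := by
      have e : |(F : ℝ)| = (F.natAbs : ℝ) := by rw [Nat.cast_natAbs, Int.cast_abs]
      rw [e]
      rcases h8 with h | h
      · rw [h]; simp [rad]
      · rw [h]
        have : rad 2 = 2 := by unfold rad; rw [Nat.Prime.primeFactors Nat.prime_two]; simp
        rw [this]
    rw [h6, Real.one_rpow, mul_one]
    calc min (κ / m) 1 * |(F : ℝ)| ^ l ≤ 1 * |(F : ℝ)| ^ (1 : ℝ) :=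
          mul_le_mul (min_le_right _ _) (Real.rpow_le_rpow_of_exponent_le hF1 (by linarith))
            (by positivity) (by norm_num)
      _ = |(F : ℝ)| := by rw [one_mul, Real.rpow_one]
      _ ≤ _ := h9
  · set G : ℤ := ∑ i ∈ Finset.range m, (x ^ p) ^ i * (y ^ q) ^ (m - 1 - i) with hG
    have hFG : x ^ (p * m) - y ^ (q * m) = F * G := by
      rw [pow_mul, pow_mul, hF, hG, mul_comm]
      exact ((Commute.all (x ^ p) (y ^ q)).geom_sum₂_mul m).symm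
    have hG0 : G ≠ 0 := by
      intro h0
      apply hne'
      rw [h0, mul_zero] at hFG
      linarith
    have hG1 : (1 : ℝ) ≤ |(G : ℝ)| := by exact_mod_cast Int.one_le_abs hG0
    have hGle : |(G : ℝ)| ≤ m * M ^ (m - 1) := by
      rw [hG]
      push_cast
      calc |∑ i ∈ Finset.range m, ((x : ℝ) ^ p) ^ i * ((y : ℝ) ^ q) ^ (m - 1 - i)| ≤
          ∑ i ∈ Finset.range m, |((x : ℝ) ^ p) ^ i * ((y : ℝ) ^ q) ^ (m - 1 - i)| :=
            Finset.abs_sum_le_sum_abs _ _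
        _ ≤ ∑ i ∈ Finset.range m, M ^ (m - 1) := by
            refine Finset.sum_le_sum fun i hi => ?_
            have hi' : i + (m - 1 - i) = m - 1 := by
              have := Finset.mem_range.1 hi
              omega
            have hx' : |(x : ℝ) ^ p| ≤ M := by rw [abs_pow]; exact le_max_left _ _
            have hy' : |(y : ℝ) ^ q| ≤ M := by rw [abs_pow]; exact le_max_right _ _
            calc |((x : ℝ) ^ p) ^ i * ((y : ℝ) ^ q) ^ (m - 1 - i)| =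
                |(x : ℝ) ^ p| ^ i * |(y : ℝ) ^ q| ^ (m - 1 - i) := by
                  rw [abs_mul, abs_pow ((x : ℝ) ^ p), abs_pow ((y : ℝ) ^ q)]
              _ ≤ M ^ i * M ^ (m - 1 - i) :=
                  mul_le_mul (pow_le_pow_left₀ (abs_nonneg _) hx' _)
                    (pow_le_pow_left₀ (abs_nonneg _) hy' _) (by positivity) (by positivity)
              _ = M ^ (m - 1) := by rw [← pow_add, hi']
        _ = _ := by rw [Finset.sum_const, Finset.card_range, nsmul_eq_mul]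
    have hMm : max (|(x : ℝ)| ^ (p * m)) (|(y : ℝ)| ^ (q * m)) = M ^ m := by
      rw [pow_mul, pow_mul, hM]
      rcases le_total (|(x : ℝ)| ^ p) (|(y : ℝ)| ^ q) with h1 | h1
      · rw [max_eq_right h1, max_eq_right (pow_le_pow_left₀ (by positivity) h1 m)]
      · rw [max_eq_left h1, max_eq_left (pow_le_pow_left₀ (by positivity) h1 m)]
    have h1' := hκ x y hxy hne' (by rw [hFG]; exact hN.mul_right _)
    have e1 : (x : ℝ) ^ (p * m) - (y : ℝ) ^ (q * m) = (F : ℝ) * G := by exact_mod_cast hFG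
    rw [hMm, hFG, e1, abs_mul, Real.mul_rpow (abs_nonneg _) (abs_nonneg _)] at h1'
    have h2 : rad (F * G).natAbs ≤ rad F.natAbs * G.natAbs := by
      apply Pool.Agent.N757.OC.R_bound (Int.natAbs_ne_zero.2 hF0) (Int.natAbs_ne_zero.2 hG0)
      intro ℓ hℓ hd
      rwa [Int.natAbs_mul] at hd
    have h3 : (rad (F * G).natAbs : ℝ) ≤ rad F.natAbs * |(G : ℝ)| := by
      have e1 : |(G : ℝ)| = (G.natAbs : ℝ) := by rw [Nat.cast_natAbs, Int.cast_abs]
      rw [e1]; exact_mod_cast h2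
    have hp0 : (0 : ℝ) < p := by exact_mod_cast hp
    have hq0 : (0 : ℝ) < q := by exact_mod_cast hq
    have hG0' : (0 : ℝ) < |(G : ℝ)| := by linarith
    -- divide by `|G|`
    have h4 : κ * (|(F : ℝ)| ^ l * ((M ^ m) ^ (1 - 1 / ((p * m : ℕ) : ℝ) - 1 / ((q * m : ℕ) : ℝ) - l -
        ε / m))) * |(G : ℝ)| ^ (l - 1) ≤ rad F.natAbs := by
      have h5 : (κ * (|(F : ℝ)| ^ l * ((M ^ m) ^ (1 - 1 / ((p * m : ℕ) : ℝ) - 1 / ((q * m : ℕ) : ℝ) - l -
        ε / m))) * |(G : ℝ)| ^ (l - 1)) * |(G : ℝ)| ≤ rad F.natAbs * |(G : ℝ)| := by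
        refine le_trans (le_of_eq ?_) (h1'.trans h3)
        have e2 : |(G : ℝ)| ^ (l - 1) * |(G : ℝ)| = |(G : ℝ)| ^ l := by
          nth_rewrite 2 [← Real.rpow_one |(G : ℝ)|]
          rw [← Real.rpow_add hG0']
          congr 1; ring
        rw [← e2]; ring
      exact le_of_mul_le_mul_right h5 hG0'
    have h5 : (m * M ^ (m - 1)) ^ (l - 1) ≤ |(G : ℝ)| ^ (l - 1) :=
      Real.rpow_le_rpow_of_nonpos hG0' hGle (by linarith)
    have h6 : (m : ℝ)⁻¹ * (M ^ (m - 1)) ^ (l - 1) ≤ (m * M ^ (m - 1)) ^ (l - 1) := by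
      rw [Real.mul_rpow hm0.le (by positivity)]
      apply mul_le_mul_of_nonneg_right _ (by positivity)
      rw [← Real.rpow_neg_one]
      exact Real.rpow_le_rpow_of_exponent_le hm1 (by linarith)
    have h7 : ((M ^ m) ^ (1 - 1 / ((p * m : ℕ) : ℝ) - 1 / ((q * m : ℕ) : ℝ) - l - ε / m)) *
        (M ^ (m - 1)) ^ (l - 1) = M ^ (1 - 1 / (p : ℝ) - 1 / (q : ℝ) - l - ε) := by
      rw [← Real.rpow_natCast M (m - 1), ← Real.rpow_natCast M m, ← Real.rpow_mul hM0.le,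
        ← Real.rpow_mul hM0.le, ← Real.rpow_add hM0]
      congr 1
      rw [Nat.cast_sub hm]
      push_cast
      field_simp
      ring
    refine le_trans ?_ h4
    calc min (κ / m) 1 * (|(F : ℝ)| ^ l * M ^ (1 - 1 / (p : ℝ) - 1 / (q : ℝ) - l - ε))
        ≤ κ / m * (|(F : ℝ)| ^ l * M ^ (1 - 1 / (p : ℝ) - 1 / (q : ℝ) - l - ε)) :=
          mul_le_mul_of_nonneg_right (min_le_left _ _) (by positivity)
      _ = κ * (|(F : ℝ)| ^ l * ((M ^ m) ^ (1 - 1 / ((p * m : ℕ) : ℝ) - 1 / ((q * m : ℕ) : ℝ) - l -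
          ε / m))) * ((m : ℝ)⁻¹ * (M ^ (m - 1)) ^ (l - 1)) := by
          rw [← h7]; field_simp
      _ ≤ _ := mul_le_mul_of_nonneg_left (h6.trans h5) (by positivity)

/-- what is needed of a map -/
def Map (l : ℝ) (p q N : ℕ) : Prop :=
  ∃ N' : ℕ, 1 ≤ N' ∧ ∀ K₀ : ℝ, 1 ≤ K₀ → ∃ (K : ℝ) (d : ℕ), 1 ≤ K ∧ 1 ≤ d ∧
    ∀ a b c : ℕ, 0 < a → 0 < b → a.Coprime b → a + b = c → N' ∣ a * b * c → (c : ℝ) ≤ K₀ * b →
      ∃ x y : ℤ, IsCoprime x y ∧ x ^ p ≠ y ^ q ∧ (N : ℤ) ∣ x ^ p - y ^ q ∧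
        (rad (x ^ p - y ^ q).natAbs : ℝ) * P l a b c ≤ K * rad (a * b * c) *
          (|(x : ℝ) ^ p - (y : ℝ) ^ q| ^ l *
            (max (|(x : ℝ)| ^ p) (|(y : ℝ)| ^ q)) ^ (1 - 1 / (p : ℝ) - 1 / (q : ℝ) - l)) ∧
        max (|(x : ℝ)| ^ p) (|(y : ℝ)| ^ q) ≤ K * (c : ℝ) ^ d

/-- the power map -/
theorem power_P {l : ℝ} (h0 : 0 ≤ l) (h6 : l ≤ 1 / 6) {m a b c S : ℕ} (hm : 1 ≤ m) (ha : 0 < a)
    (hab : a ≤ b) (habc : a + b = c) (hS0 : 0 < S) (hS : S ≤ m * c ^ (m - 1)) :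
    (S : ℝ) * P l a b c ≤ (m * 2 ^ m : ℝ) * P l (a * S) (b ^ m) (c ^ m) := by
  have hb : 0 < b := by omega
  have hc : 0 < c := by omega
  have hcR : (1 : ℝ) ≤ c := by exact_mod_cast hc
  have hc0 : (0 : ℝ) < c := by linarith
  have ha0 : (0 : ℝ) < a := by exact_mod_cast ha
  have hb0 : (0 : ℝ) < b := by exact_mod_cast hb
  have hSR : (0 : ℝ) < S := by exact_mod_cast hS0
  have hm1 : (1 : ℝ) ≤ m := by exact_mod_cast hm
  have hbc : (b : ℝ) ≤ c := by exact_mod_cast (by omega : b ≤ c)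
  have hcb : (c : ℝ) ≤ 2 * b := by exact_mod_cast (by omega : c ≤ 2 * b)
  have hSle : (S : ℝ) ≤ m * (c : ℝ) ^ (m - 1) := by exact_mod_cast hS
  unfold P
  push_cast
  have e1 : ((a : ℝ) * b * c) ^ l = (a : ℝ) ^ l * (b : ℝ) ^ l * (c : ℝ) ^ l := by
    rw [Real.mul_rpow (by positivity) hc0.le, Real.mul_rpow ha0.le hb0.le]
  have e2 : ((a : ℝ) * S * (b : ℝ) ^ m * (c : ℝ) ^ m) ^ l =
      (a : ℝ) ^ l * (S : ℝ) ^ l * ((b : ℝ) ^ m) ^ l * ((c : ℝ) ^ m) ^ l := by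
    rw [Real.mul_rpow (by positivity) (by positivity), Real.mul_rpow (by positivity) (by positivity),
      Real.mul_rpow ha0.le hSR.le]
  rw [e1, e2]
  have k1 : (S : ℝ) = (S : ℝ) ^ l * (S : ℝ) ^ (1 - l) := by
    rw [← Real.rpow_add hSR, add_sub_cancel, Real.rpow_one]
  have e3 : ((m - 1 : ℕ) : ℝ) = m - 1 := by rw [Nat.cast_sub hm]; push_cast; ring
  have k2 : (S : ℝ) ^ (1 - l) ≤ m * (c : ℝ) ^ (((m : ℝ) - 1) * (1 - l)) := by
    calc (S : ℝ) ^ (1 - l) ≤ (m * (c : ℝ) ^ (m - 1)) ^ (1 - l) :=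
          Real.rpow_le_rpow hSR.le hSle (by linarith)
      _ = (m : ℝ) ^ (1 - l) * (c : ℝ) ^ (((m : ℝ) - 1) * (1 - l)) := by
          rw [Real.mul_rpow (by positivity) (by positivity), ← Real.rpow_natCast (c : ℝ) (m - 1),
            ← Real.rpow_mul hc0.le, e3]
      _ ≤ (m : ℝ) ^ (1 : ℝ) * (c : ℝ) ^ (((m : ℝ) - 1) * (1 - l)) :=
          mul_le_mul_of_nonneg_right (Real.rpow_le_rpow_of_exponent_le hm1 (by linarith)) (by positivity)
      _ = _ := by rw [Real.rpow_one]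
  have k3 : (b : ℝ) ^ l ≤ (c : ℝ) ^ l := Real.rpow_le_rpow hb0.le hbc h0
  have k4 : (c : ℝ) ^ (m * l) ≤ 2 ^ m * ((b : ℝ) ^ m) ^ l := by
    have h1 : ((c : ℝ) ^ m) ^ l ≤ ((2 * (b : ℝ)) ^ m) ^ l :=
      Real.rpow_le_rpow (by positivity) (pow_le_pow_left₀ hc0.le hcb m) h0
    rw [mul_pow, Real.mul_rpow (by positivity) (by positivity)] at h1
    have h2 : ((2 : ℝ) ^ m) ^ l ≤ 2 ^ m := by
      calc ((2 : ℝ) ^ m) ^ l ≤ ((2 : ℝ) ^ m) ^ (1 : ℝ) :=
            Real.rpow_le_rpow_of_exponent_le (one_le_pow₀ (by norm_num)) (by linarith)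
        _ = 2 ^ m := Real.rpow_one _
    rw [← Real.rpow_natCast (c : ℝ) m, ← Real.rpow_mul hc0.le] at h1
    exact h1.trans (mul_le_mul_of_nonneg_right h2 (by positivity))
  have e4 : ((c : ℝ) ^ m) ^ l = (c : ℝ) ^ (m * l) := by
    rw [← Real.rpow_natCast (c : ℝ) m, ← Real.rpow_mul hc0.le]
  have e5 : ((c : ℝ) ^ m) ^ (1 - 3 * l) = (c : ℝ) ^ (m * (1 - 3 * l)) := by
    rw [← Real.rpow_natCast (c : ℝ) m, ← Real.rpow_mul hc0.le]
  have e6 : (c : ℝ) ^ (((m : ℝ) - 1) * (1 - l)) * ((c : ℝ) ^ l * (c : ℝ) ^ l * (c : ℝ) ^ (1 - 3 * l)) =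
      (c : ℝ) ^ (m * l) * ((c : ℝ) ^ (m * l) * (c : ℝ) ^ (m * (1 - 3 * l))) := by
    rw [← Real.rpow_add hc0, ← Real.rpow_add hc0, ← Real.rpow_add hc0, ← Real.rpow_add hc0,
      ← Real.rpow_add hc0]
    congr 1; ring
  rw [e4, e5]
  calc (S : ℝ) * ((a : ℝ) ^ l * (b : ℝ) ^ l * (c : ℝ) ^ l * (c : ℝ) ^ (1 - 3 * l))
      = (a : ℝ) ^ l * (S : ℝ) ^ l * ((S : ℝ) ^ (1 - l) *
        ((b : ℝ) ^ l * (c : ℝ) ^ l * (c : ℝ) ^ (1 - 3 * l))) := by
        nth_rewrite 1 [k1]; ring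
    _ ≤ (a : ℝ) ^ l * (S : ℝ) ^ l * ((m * (c : ℝ) ^ (((m : ℝ) - 1) * (1 - l))) *
        ((c : ℝ) ^ l * (c : ℝ) ^ l * (c : ℝ) ^ (1 - 3 * l))) := by
        gcongr
    _ = (a : ℝ) ^ l * (S : ℝ) ^ l * m * ((c : ℝ) ^ (m * l) *
        ((c : ℝ) ^ (m * l) * (c : ℝ) ^ (m * (1 - 3 * l)))) := by
        rw [← e6]; ring
    _ ≤ (a : ℝ) ^ l * (S : ℝ) ^ l * m * ((2 ^ m * ((b : ℝ) ^ m) ^ l) *
        ((c : ℝ) ^ (m * l) * (c : ℝ) ^ (m * (1 - 3 * l)))) := by
        gcongr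
    _ = _ := by ring

/-- **The bridge.** -/
theorem bridgeS {l : ℝ} (h0 : 0 ≤ l) (h6 : l ≤ 1 / 6) (p q N : ℕ) (hmap : Map l p q N)
    (h : OneCuspS l p q N) : SL l := by
  obtain ⟨N', hN', hmap⟩ := hmap
  set m : ℕ := N'.totient * N' with hm
  have hφ : 0 < N'.totient := Nat.totient_pos.2 hN'
  have hm0 : 1 ≤ m := Nat.mul_pos hφ hN'
  have hmR : (1 : ℝ) ≤ m := by exact_mod_cast hm0
  obtain ⟨K, d, hK1, hd, hmap⟩ := hmap (2 ^ m) (one_le_pow₀ (by norm_num))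
  have hd0 : (0 : ℝ) < d := by exact_mod_cast hd
  have main : ∀ ε : ℝ, 0 < ε → ∃ κ : ℝ, 0 < κ ∧ ∀ a b c : ℕ, 0 < a → a ≤ b → a.Coprime b → a + b = c →
      κ * P l a b c * (c : ℝ) ^ (-ε) ≤ rad (a * b * c) := by
    intro ε hε
    set ε' : ℝ := ε / (m * d) with hε'
    have hε'0 : 0 < ε' := by positivity
    obtain ⟨κ, hκ0, hκ⟩ := h ε' hε'0
    refine ⟨κ / (m * 2 ^ m * K) * K ^ (-ε'), by positivity, ?_⟩
    intro a b c ha hab hcop habc
    have hb : 0 < b := by omega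
    have hc : 0 < c := by omega
    obtain ⟨S, hS1, hS2, hS3⟩ := exists_S (b := b) ha hm0
    rw [habc] at hS1 hS2 hS3
    have hS0 : 0 < S := lt_of_lt_of_le (Nat.pow_pos hc) hS2
    have hbm : 0 < b ^ m := Nat.pow_pos hb
    have hcm : 0 < c ^ m := Nat.pow_pos hc
    have haS : 0 < a * S := Nat.mul_pos ha hS0
    have hbc : b.Coprime c := by rw [← habc]; simpa using hcop.symm
    have hcop' : (a * S).Coprime (b ^ m) := by
      have h1 : (c ^ m).Coprime (b ^ m) := hbc.symm.pow m m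
      rw [hS1] at h1
      simpa using h1
    have hdvd : N' ∣ a * S * b ^ m * c ^ m := by
      have h1 := dvd_key (M := N') (k := m) (b := b) (c := c) (Dvd.intro_left _ rfl) (Dvd.intro _ rfl)
        hm0 (by omega)
      have h2 : c ^ m - b ^ m = a * S := by omega
      rwa [h2] at h1
    have hK₀ : ((c ^ m : ℕ) : ℝ) ≤ 2 ^ m * ((b ^ m : ℕ) : ℝ) := by
      push_cast
      rw [← mul_pow]
      apply pow_le_pow_left₀ (by positivity)
      exact_mod_cast (by omega : c ≤ 2 * b)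
    obtain ⟨x, y, k1, k2, k3, k4, k5⟩ := hmap (a * S) (b ^ m) (c ^ m) haS hbm hcop' hS1.symm hdvd hK₀
    have hk := hκ x y k1 k2 k3
    set M : ℝ := max (|(x : ℝ)| ^ p) (|(y : ℝ)| ^ q) with hM
    have hM1 : 1 ≤ M := M_one k1
    have hM0 : 0 < M := by linarith
    have hz0 : (x : ℝ) ^ p - (y : ℝ) ^ q ≠ 0 := by
      intro h1
      apply k2
      have : (x : ℝ) ^ p = (y : ℝ) ^ q := sub_eq_zero.1 h1
      exact_mod_cast this
    have hz : 0 < |(x : ℝ) ^ p - (y : ℝ) ^ q| := abs_pos.2 hz0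
    set Q : ℝ := |(x : ℝ) ^ p - (y : ℝ) ^ q| ^ l * M ^ (1 - 1 / (p : ℝ) - 1 / (q : ℝ) - l) with hQ
    have hQ0 : 0 < Q := by positivity
    have hP'0 : 0 < P l (a * S) (b ^ m) (c ^ m) := P_pos haS hbm hcm
    have hP0 : 0 < P l a b c := P_pos ha hb hc
    have e1 : |(x : ℝ) ^ p - (y : ℝ) ^ q| ^ l * M ^ (1 - 1 / (p : ℝ) - 1 / (q : ℝ) - l - ε') =
        Q * M ^ (-ε') := by
      rw [hQ, mul_assoc, ← Real.rpow_add hM0]
      congr 2
    rw [e1] at hk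
    -- cancel `Q`
    have h1 : κ * M ^ (-ε') * P l (a * S) (b ^ m) (c ^ m) ≤ K * rad (a * S * b ^ m * c ^ m) := by
      have h2 : (κ * M ^ (-ε') * P l (a * S) (b ^ m) (c ^ m)) * Q ≤
          (K * rad (a * S * b ^ m * c ^ m)) * Q := by
        calc (κ * M ^ (-ε') * P l (a * S) (b ^ m) (c ^ m)) * Q =
            (κ * (Q * M ^ (-ε'))) * P l (a * S) (b ^ m) (c ^ m) := by ring
          _ ≤ (rad (x ^ p - y ^ q).natAbs : ℝ) * P l (a * S) (b ^ m) (c ^ m) :=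
              mul_le_mul_of_nonneg_right hk hP'0.le
          _ ≤ _ := k4
      exact le_of_mul_le_mul_right h2 hQ0
    have hcR : (1 : ℝ) ≤ c := by exact_mod_cast hc
    have hc0 : (0 : ℝ) < c := by linarith
    have hMe : K ^ (-ε') * (c : ℝ) ^ (-ε) ≤ M ^ (-ε') := by
      have h2 : M ≤ K * ((c : ℝ) ^ m) ^ d := by
        have := k5
        push_cast at this
        exact this
      have h3 : (K * ((c : ℝ) ^ m) ^ d) ^ (-ε') ≤ M ^ (-ε') :=
        Real.rpow_le_rpow_of_nonpos hM0 h2 (by linarith)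
      refine le_trans (le_of_eq ?_) h3
      rw [Real.mul_rpow (by linarith) (by positivity), ← pow_mul, ← Real.rpow_natCast,
        ← Real.rpow_mul hc0.le]
      congr 2
      rw [hε']
      push_cast
      field_simp
    have hrad : (rad (a * S * b ^ m * c ^ m) : ℝ) ≤ rad (a * b * c) * S := by
      have : rad (a * S * b ^ m * c ^ m) ≤ rad (a * b * c) * S := by
        apply Pool.Agent.N757.OC.R_bound (by positivity) hS0.ne'
        intro ℓ hℓ hd'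
        rcases (Nat.Prime.dvd_mul hℓ).1 hd' with h | h
        · rcases (Nat.Prime.dvd_mul hℓ).1 h with h | h
          · rcases (Nat.Prime.dvd_mul hℓ).1 h with h | h
            · exact ((h.mul_right _).mul_right _).mul_right _
            · exact h.mul_left _
          · exact (((hℓ.dvd_of_dvd_pow h).mul_left _).mul_right _).mul_right _
        · exact ((hℓ.dvd_of_dvd_pow h).mul_left _).mul_right _
      exact_mod_cast this
    have hpow := power_P h0 h6 hm0 ha hab habc hS0 hS3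
    have hSR : (0 : ℝ) < S := by exact_mod_cast hS0
    have hfin : (κ / (m * 2 ^ m * K) * K ^ (-ε') * P l a b c * (c : ℝ) ^ (-ε)) * S ≤
        rad (a * b * c) * S := by
      refine le_trans ?_ hrad
      have h5 : κ / (m * 2 ^ m * K) * M ^ (-ε') * ((m * 2 ^ m) * P l (a * S) (b ^ m) (c ^ m)) ≤
          rad (a * S * b ^ m * c ^ m) := by
        have h6' : κ / (m * 2 ^ m * K) * M ^ (-ε') * ((m * 2 ^ m) * P l (a * S) (b ^ m) (c ^ m)) =
            (κ * M ^ (-ε') * P l (a * S) (b ^ m) (c ^ m)) / K := by field_simp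
        rw [h6', div_le_iff₀ (by linarith)]
        linarith
      refine le_trans ?_ h5
      calc (κ / (m * 2 ^ m * K) * K ^ (-ε') * P l a b c * (c : ℝ) ^ (-ε)) * S =
          κ / (m * 2 ^ m * K) * (K ^ (-ε') * (c : ℝ) ^ (-ε)) * (S * P l a b c) := by ring
        _ ≤ κ / (m * 2 ^ m * K) * M ^ (-ε') * ((m * 2 ^ m) * P l (a * S) (b ^ m) (c ^ m)) := by
            gcongr
    exact le_of_mul_le_mul_right hfin hSR
  intro ε hε
  obtain ⟨κ, hκ0, hκ⟩ := main ε hε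
  refine ⟨κ, hκ0, fun a b c ha hb hcop habc => ?_⟩
  rcases le_total a b with hab | hab
  · exact hκ a b c ha hab hcop habc
  · have h1 := hκ b a c hb hab hcop.symm (by omega)
    unfold P at h1 ⊢
    rwa [mul_comm b a] at h1

end Pool.Agent.N757.SC
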