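import Mathlib
import Pool.Agent.N757.SC.Bridge

/-!
# Szpiro's inequality and the radical of `x ^ p - y ^ q`: the maps for (4,2), (3,2), (3,3)
-/

set_option autoImplicit false

namespace Pool.Agent.N757.SC

open Finset Pool.Agent.N757.SZ

/-- the numerical estimate -/
theorem num {l e c A F M κ₁ κ₂ s d t : ℝ} (h0 : 0 ≤ l) (h6 : l ≤ 1) (he : l ≤ e) (he1 : e ≤ 1)
    (hc : 1 ≤ c) (hA : 0 < A) (hκ₁ : 0 < κ₁) (hκ₁' : κ₁ ≤ 1) (hκ₂ : 0 < κ₂) (hκ₂' : κ₂ ≤ 1)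
    (hF : κ₁ * (A * c ^ s) ≤ F) (hM : κ₂ * c ^ d ≤ M) (ht : s * l + d * (e - l) = t) :
    κ₁ * κ₂ * (A ^ l * c ^ t) ≤ F ^ l * M ^ (e - l) := by
  have hc0 : 0 < c := by linarith
  have h1 : κ₁ * (A ^ l * c ^ (s * l)) ≤ F ^ l := by
    have h2 : (κ₁ * (A * c ^ s)) ^ l ≤ F ^ l := Real.rpow_le_rpow (by positivity) hF h0
    rw [Real.mul_rpow hκ₁.le (by positivity), Real.mul_rpow hA.le (by positivity),
      ← Real.rpow_mul hc0.le] at h2
    refine le_trans (mul_le_mul_of_nonneg_right ?_ (by positivity)) h2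
    calc κ₁ = κ₁ ^ (1 : ℝ) := (Real.rpow_one _).symm
      _ ≤ κ₁ ^ l := Real.rpow_le_rpow_of_exponent_ge hκ₁ hκ₁' h6
  have h3 : κ₂ * c ^ (d * (e - l)) ≤ M ^ (e - l) := by
    have h2 : (κ₂ * c ^ d) ^ (e - l) ≤ M ^ (e - l) := Real.rpow_le_rpow (by positivity) hM (by linarith)
    rw [Real.mul_rpow hκ₂.le (by positivity), ← Real.rpow_mul hc0.le] at h2
    refine le_trans (mul_le_mul_of_nonneg_right ?_ (by positivity)) h2
    calc κ₂ = κ₂ ^ (1 : ℝ) := (Real.rpow_one _).symm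
      _ ≤ κ₂ ^ (e - l) := Real.rpow_le_rpow_of_exponent_ge hκ₂ hκ₂' (by linarith)
  calc κ₁ * κ₂ * (A ^ l * c ^ t) = (κ₁ * (A ^ l * c ^ (s * l))) * (κ₂ * c ^ (d * (e - l))) := by
        rw [← ht, Real.rpow_add hc0]; ring
    _ ≤ F ^ l * M ^ (e - l) := mul_le_mul h1 h3 (by positivity) (le_trans (by positivity) h1)

/-- common facts about a triple -/
theorem triple {a b c : ℕ} (hab : a.Coprime b) (habc : a + b = c) :
    (c : ℤ) = a + b ∧ IsCoprime (a : ℤ) (b : ℤ) ∧ IsCoprime (a : ℤ) (c : ℤ) ∧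
      IsCoprime (b : ℤ) (c : ℤ) := by
  have h1 : (c : ℤ) = a + b := by rw [← habc]; push_cast; ring
  have h2 : IsCoprime (a : ℤ) (b : ℤ) := Nat.isCoprime_iff_coprime.2 hab
  refine ⟨h1, h2, ?_, ?_⟩
  · rw [h1]
    have := h2.add_mul_left_right 1
    rwa [mul_one, add_comm] at this
  · rw [h1]
    have := h2.symm.add_mul_left_right 1
    rwa [mul_one] at this

/-- from the estimates to the form needed by `Map` -/
theorem finish {l : ℝ} {p q a b c g : ℕ} {x y : ℤ} {K : ℝ} (hP : 0 ≤ P l a b c)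
    (hne : x ^ p ≠ y ^ q) (hg : g ≠ 0) (habc : a * b * c ≠ 0)
    (hrad : ∀ ℓ : ℕ, ℓ.Prime → ℓ ∣ (x ^ p - y ^ q).natAbs → ℓ ∣ a * b * c * g)
    (hnum : (g : ℝ) * P l a b c ≤ K * (|(x : ℝ) ^ p - (y : ℝ) ^ q| ^ l *
            (max (|(x : ℝ)| ^ p) (|(y : ℝ)| ^ q)) ^ (1 - 1 / (p : ℝ) - 1 / (q : ℝ) - l))) :
    (rad (x ^ p - y ^ q).natAbs : ℝ) * P l a b c ≤ K * rad (a * b * c) *
          (|(x : ℝ) ^ p - (y : ℝ) ^ q| ^ l *
            (max (|(x : ℝ)| ^ p) (|(y : ℝ)| ^ q)) ^ (1 - 1 / (p : ℝ) - 1 / (q : ℝ) - l)) := by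
  have h1 : rad (x ^ p - y ^ q).natAbs ≤ rad (a * b * c) * g :=
    Pool.Agent.N757.OC.R_bound habc hg hrad
  have h2 : (rad (x ^ p - y ^ q).natAbs : ℝ) ≤ rad (a * b * c) * g := by exact_mod_cast h1
  calc (rad (x ^ p - y ^ q).natAbs : ℝ) * P l a b c ≤ (rad (a * b * c) * g) * P l a b c :=
        mul_le_mul_of_nonneg_right h2 hP
    _ = rad (a * b * c) * (g * P l a b c) := by ring
    _ ≤ rad (a * b * c) * _ := mul_le_mul_of_nonneg_left hnum (by positivity)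
    _ = _ := by ring

theorem map42 {l : ℝ} (h0 : 0 ≤ l) (h6 : l ≤ 1 / 6) (N : ℕ) (hN : 1 ≤ N) : Map l 4 2 N := by
  refine ⟨4 * N, by omega, fun K₀ _ => ⟨32, 4, by norm_num, by norm_num, ?_⟩⟩
  intro a b c ha hb hab habc hdvd _
  obtain ⟨hcab, cab, cac, cbc⟩ := triple hab habc
  have hc : 0 < c := by omega
  have ha0 : (0 : ℤ) < a := by exact_mod_cast ha
  have hb0 : (0 : ℤ) < b := by exact_mod_cast hb
  have hc0 : (0 : ℤ) < c := by exact_mod_cast hc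
  have haR : (0 : ℝ) < a := by exact_mod_cast ha
  have hbR : (0 : ℝ) < b := by exact_mod_cast hb
  have hcR : (0 : ℝ) < c := by exact_mod_cast hc
  have hc1 : (1 : ℝ) ≤ c := by exact_mod_cast hc
  have hsumR : (c : ℝ) = a + b := by exact_mod_cast hcab
  have hNZ : (4 * N : ℤ) ∣ a * b * c := by exact_mod_cast hdvd
  -- the pair
  obtain ⟨x, y, τ, hxy, hτ, hF, hxR, hyR1, hyR2⟩ : ∃ x y : ℤ, ∃ τ : ℕ, IsCoprime x y ∧ (τ = 1 ∨ τ = 16) ∧
      x ^ 4 - y ^ 2 = -(τ * (a * b * c) * c) ∧ |(x : ℝ)| ≤ c ∧ (c : ℝ) ^ 2 / 4 ≤ |(y : ℝ)| ∧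
      |(y : ℝ)| ≤ 2 * (c : ℝ) ^ 2 := by
    rcases Int.even_or_odd (c : ℤ) with hev | hodd
    · -- `4 ∣ c`
      have h2a : IsCoprime (2 : ℤ) (a : ℤ) := (cac.of_isCoprime_of_dvd_right hev.two_dvd).symm
      have h2b : IsCoprime (2 : ℤ) (b : ℤ) := (cbc.of_isCoprime_of_dvd_right hev.two_dvd).symm
      have h4c : (4 : ℤ) ∣ c := by
        have h1 : (4 : ℤ) ∣ a * b * c := (Dvd.intro _ rfl).trans hNZ
        have h2 : IsCoprime (4 : ℤ) (a * b) := by
          have : IsCoprime (2 ^ 2 : ℤ) (a * b) := (h2a.mul_right h2b).pow_left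
          norm_num at this
          exact this
        exact h2.dvd_of_dvd_mul_left h1
      obtain ⟨C, hC⟩ := h4c
      have hx : IsCoprime (2 * C - a : ℤ) (2 * (2 * C) ^ 2) := by
        have h1 : IsCoprime (a : ℤ) (2 * C) := cac.of_isCoprime_of_dvd_right ⟨2, by rw [hC]; ring⟩
        have h2 : IsCoprime (2 * C - a : ℤ) (2 * C) := by
          have := h1.neg_left.add_mul_right_left 1
          rwa [show -(a : ℤ) + 1 * (2 * C) = 2 * C - a by ring] at this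
        have h3 : IsCoprime (2 * C - a : ℤ) 2 := h2.of_isCoprime_of_dvd_right (Dvd.intro _ rfl)
        exact h3.mul_right h2.pow_right
      refine ⟨2 * C - a, (2 * C - a) ^ 2 - 2 * (2 * C) ^ 2, 1, ?_, Or.inl rfl, ?_, ?_, ?_, ?_⟩
      · have h4 := hx.neg_right.add_mul_left_right (2 * C - a)
        rwa [show -(2 * (2 * C) ^ 2) + (2 * C - (a : ℤ)) * (2 * C - a) =
          (2 * C - a) ^ 2 - 2 * (2 * C) ^ 2 by ring] at h4
      · have hb' : (b : ℤ) = 4 * C - a := by linarith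
        rw [hb', hC]; push_cast; ring
      · have hCR : (c : ℝ) = 4 * C := by exact_mod_cast hC
        push_cast
        rw [abs_le]; constructor <;> linarith
      · have hCR : (c : ℝ) = 4 * C := by exact_mod_cast hC
        push_cast
        rw [abs_of_nonpos (by nlinarith)]
        nlinarith [mul_pos haR hbR]
      · have hCR : (c : ℝ) = 4 * C := by exact_mod_cast hC
        push_cast
        rw [abs_of_nonpos (by nlinarith)]
        nlinarith [sq_nonneg (2 * (C : ℝ) - a)]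
    · have h2x : IsCoprime (b - a : ℤ) 2 := by
        have : Odd ((b : ℤ) - a) := by
          rw [show (b : ℤ) - a = c - 2 * a by rw [hcab]; ring]
          exact hodd.sub_even (even_two_mul _)
        exact (Int.isCoprime_two_right).2 this
      have hbx : IsCoprime (b - a : ℤ) (b : ℤ) := by
        have := cab.neg_left.add_mul_right_left 1
        rwa [show -(a : ℤ) + 1 * b = b - a by ring] at this
      have hcx : IsCoprime (b - a : ℤ) (c : ℤ) := by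
        have h1 : IsCoprime (b - a : ℤ) (2 * b) := h2x.mul_right hbx
        have := h1.add_mul_left_right (-1)
        rwa [show 2 * (b : ℤ) + (b - a) * -1 = c by rw [hcab]; ring] at this
      refine ⟨b - a, (b - a) ^ 2 - 2 * c ^ 2, 16, ?_, Or.inr rfl, ?_, ?_, ?_, ?_⟩
      · have h3 : IsCoprime (b - a : ℤ) (2 * c ^ 2) := h2x.mul_right hcx.pow_right
        have h4 := h3.neg_right.add_mul_left_right (b - a : ℤ)
        rwa [show -(2 * (c : ℤ) ^ 2) + (b - a) * (b - a) = (b - a) ^ 2 - 2 * c ^ 2 by ring] at h4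
      · rw [hcab]; push_cast; ring
      · push_cast
        rw [abs_le]; constructor <;> linarith
      · push_cast
        rw [abs_of_nonpos (by nlinarith)]
        nlinarith [mul_pos haR hbR]
      · push_cast
        rw [abs_of_nonpos (by nlinarith)]
        nlinarith [sq_nonneg ((b : ℝ) - a)]
  have hτ1 : (1 : ℝ) ≤ τ := by rcases hτ with h | h <;> rw [h] <;> norm_num
  have habcZ : (0 : ℤ) < a * b * c := by positivity
  have hτ0 : (0 : ℤ) < τ := by rcases hτ with h | h <;> rw [h] <;> norm_num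
  have hne : x ^ 4 ≠ y ^ 2 := by
    intro h
    rw [h, sub_self] at hF
    have : (0 : ℤ) < τ * (a * b * c) * c := by positivity
    omega
  have hFR : |(x : ℝ) ^ 4 - (y : ℝ) ^ 2| = τ * (a * b * c) * c := by
    have h1 : (x : ℝ) ^ 4 - (y : ℝ) ^ 2 = -(τ * (a * b * c) * c) := by exact_mod_cast hF
    rw [h1, abs_neg, abs_of_pos (by positivity)]
  refine ⟨x, y, hxy, hne, ?_, ?_, ?_⟩
  · rw [hF]
    have h1 : (N : ℤ) ∣ a * b * c := (Dvd.intro_left _ rfl).trans hNZ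
    exact ((h1.mul_left _).mul_right _).neg_right
  · apply finish (g := 2) (P_pos ha hb hc).le hne (by norm_num) (by positivity)
    · intro ℓ hℓ hd
      have h1 : (x ^ 4 - y ^ 2).natAbs = τ * (a * b * c) * c := by
        rw [hF, Int.natAbs_neg, show ((τ : ℤ) * (a * b * c) * c) = ((τ * (a * b * c) * c : ℕ) : ℤ) by
          push_cast; ring, Int.natAbs_natCast]
      rw [h1] at hd
      rcases (Nat.Prime.dvd_mul hℓ).1 hd with h | h
      · rcases (Nat.Prime.dvd_mul hℓ).1 h with h | h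
        · rcases hτ with h2 | h2
          · rw [h2] at h
            exact absurd (Nat.dvd_one.1 h) hℓ.one_lt.ne'
          · rw [h2, show (16 : ℕ) = 2 ^ 4 by norm_num] at h
            exact (hℓ.dvd_of_dvd_pow h).mul_left _
        · exact h.mul_right _
      · exact (h.mul_left _).mul_right _
    · have hA : (0 : ℝ) < ((a * b * c : ℕ) : ℝ) := by
        push_cast; positivity
      have hn := num (e := 1 / 4) (c := (c : ℝ)) (A := ((a * b * c : ℕ) : ℝ))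
        (F := |(x : ℝ) ^ 4 - (y : ℝ) ^ 2|) (M := max (|(x : ℝ)| ^ 4) (|(y : ℝ)| ^ 2)) (κ₁ := 1)
        (κ₂ := 1 / 16) (s := 1) (d := 4) (t := 1 - 3 * l) h0 (by linarith) (by linarith) (by norm_num)
        hc1 hA one_pos le_rfl (by norm_num) (by norm_num) (by
          rw [hFR, Real.rpow_one]
          push_cast
          have : (0 : ℝ) ≤ (a * b * c) * c := by positivity
          nlinarith) (by
          refine le_trans ?_ (le_max_right _ _)
          have h1 : ((c : ℝ) ^ 2 / 4) ^ 2 ≤ |(y : ℝ)| ^ 2 := pow_le_pow_left₀ (by positivity) hyR1 2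
          have h2 : (c : ℝ) ^ (4 : ℝ) = (c : ℝ) ^ (4 : ℕ) := by
            rw [← Real.rpow_natCast]; norm_num
          rw [h2]
          refine le_trans (le_of_eq ?_) h1
          ring) (by ring)
      have e1 : (1 : ℝ) - 1 / ((4 : ℕ) : ℝ) - 1 / ((2 : ℕ) : ℝ) - l = 1 / 4 - l := by push_cast; ring
      rw [e1]
      unfold P
      push_cast at hn ⊢
      linarith
  · apply max_le
    · calc |(x : ℝ)| ^ 4 ≤ (c : ℝ) ^ 4 := pow_le_pow_left₀ (abs_nonneg _) hxR 4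
        _ ≤ 32 * (c : ℝ) ^ 4 := by nlinarith [pow_pos hcR 4]
    · calc |(y : ℝ)| ^ 2 ≤ (2 * (c : ℝ) ^ 2) ^ 2 := pow_le_pow_left₀ (abs_nonneg _) hyR2 2
        _ ≤ 32 * (c : ℝ) ^ 4 := by nlinarith [pow_pos hcR 4]

theorem map33 {l : ℝ} (h0 : 0 ≤ l) (h6 : l ≤ 1 / 6) (N : ℕ) (hN : 1 ≤ N) : Map l 3 3 N := by
  refine ⟨3 * N, by omega, fun K₀ _ => ⟨3 * 64 * 64, 9, by norm_num, by norm_num, ?_⟩⟩
  intro a b c ha hb hab habc hdvd _
  obtain ⟨hcab, cab, cac, cbc⟩ := triple hab habc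
  have hc : 0 < c := by omega
  have ha0 : (0 : ℤ) < a := by exact_mod_cast ha
  have hb0 : (0 : ℤ) < b := by exact_mod_cast hb
  have hc0 : (0 : ℤ) < c := by exact_mod_cast hc
  have haR : (0 : ℝ) < a := by exact_mod_cast ha
  have hbR : (0 : ℝ) < b := by exact_mod_cast hb
  have hcR : (0 : ℝ) < c := by exact_mod_cast hc
  have hc1 : (1 : ℝ) ≤ c := by exact_mod_cast hc
  have hsumR : (c : ℝ) = a + b := by exact_mod_cast hcab
  have hNZ : (3 * N : ℤ) ∣ a * b * c := by exact_mod_cast hdvd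
  set q : ℤ := (a : ℤ) ^ 2 + a * b + (b : ℤ) ^ 2 with hq
  have hq0 : 0 < q := by positivity
  set X : ℤ := (b : ℤ) ^ 3 + 6 * a * b ^ 2 + 3 * a ^ 2 * b - a ^ 3 with hX
  set Y : ℤ := (b : ℤ) ^ 3 - 3 * a * b ^ 2 - 6 * a ^ 2 * b - a ^ 3 with hY
  have hF : X ^ 3 - Y ^ 3 = 27 * (a * b * c) * q ^ 3 := by rw [hX, hY, hq, hcab]; ring
  have hquad : X ^ 2 + X * Y + Y ^ 2 = 3 * q ^ 3 := by rw [hX, hY, hq]; ring
  have haX : IsCoprime (a : ℤ) X := by
    have h1 : IsCoprime (a : ℤ) ((b : ℤ) ^ 3) := cab.pow_right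
    have := h1.add_mul_left_right (6 * b ^ 2 + 3 * a * b - a ^ 2)
    rwa [show (b : ℤ) ^ 3 + a * (6 * b ^ 2 + 3 * a * b - a ^ 2) = X by rw [hX]; ring] at this
  have hbX : IsCoprime (b : ℤ) X := by
    have h1 : IsCoprime (b : ℤ) (-(a : ℤ) ^ 3) := cab.symm.pow_right.neg_right
    have := h1.add_mul_left_right (b ^ 2 + 6 * a * b + 3 * a ^ 2)
    rwa [show -(a : ℤ) ^ 3 + b * (b ^ 2 + 6 * a * b + 3 * a ^ 2) = X by rw [hX]; ring] at this
  have hcX : IsCoprime (c : ℤ) X := by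
    have h1 : IsCoprime (c : ℤ) ((a : ℤ) ^ 3) := cac.symm.pow_right
    have := h1.add_mul_left_right (b ^ 2 + 5 * a * b - 2 * a ^ 2)
    rwa [show (a : ℤ) ^ 3 + c * (b ^ 2 + 5 * a * b - 2 * a ^ 2) = X by rw [hX, hcab]; ring] at this
  have h3X : IsCoprime (3 : ℤ) X := by
    have h1 : (3 : ℤ) ∣ a * b * c := (Dvd.intro _ rfl).trans hNZ
    rcases Int.prime_three.dvd_or_dvd h1 with h | h
    · rcases Int.prime_three.dvd_or_dvd h with h | h
      · exact haX.of_isCoprime_of_dvd_left h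
      · exact hbX.of_isCoprime_of_dvd_left h
    · exact hcX.of_isCoprime_of_dvd_left h
  have hXY : IsCoprime X Y := by
    have h1 : IsCoprime (3 ^ 2 * (a * b * c) : ℤ) X :=
      h3X.pow_left.mul_left ((haX.mul_left hbX).mul_left hcX)
    have h2 := h1.symm.neg_right.add_mul_left_right 1
    rwa [show -(3 ^ 2 * (a * b * c) : ℤ) + X * 1 = Y by rw [hX, hY, hcab]; ring] at h2
  have habcZ : (0 : ℤ) < a * b * c := by positivity
  have hne : X ^ 3 ≠ Y ^ 3 := by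
    intro h1
    rw [h1, sub_self] at hF
    have : (0 : ℤ) < 27 * (a * b * c) * q ^ 3 := by positivity
    omega
  have hqR0 : (0 : ℝ) < q := by exact_mod_cast hq0
  have hqR : (q : ℝ) = (a : ℝ) ^ 2 + a * b + (b : ℝ) ^ 2 := by rw [hq]; push_cast; ring
  have hqc : (q : ℝ) ≤ (c : ℝ) ^ 2 := by rw [hqR, hsumR]; nlinarith [mul_pos haR hbR]
  have hqc2 : (c : ℝ) ^ 2 / 2 ≤ q := by rw [hqR, hsumR]; nlinarith [mul_pos haR hbR, sq_nonneg ((a : ℝ) - b)]
  have hFR : |(X : ℝ) ^ 3 - (Y : ℝ) ^ 3| = 27 * (a * b * c) * (q : ℝ) ^ 3 := by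
    have h1 : (X : ℝ) ^ 3 - (Y : ℝ) ^ 3 = 27 * (a * b * c) * (q : ℝ) ^ 3 := by exact_mod_cast hF
    rw [h1, abs_of_pos (by positivity)]
  have hquadR : (X : ℝ) ^ 2 + X * Y + (Y : ℝ) ^ 2 = 3 * (q : ℝ) ^ 3 := by exact_mod_cast hquad
  -- the maximum
  set m : ℝ := max |(X : ℝ)| |(Y : ℝ)| with hm
  have hm0 : 0 ≤ m := le_trans (abs_nonneg _) (le_max_left _ _)
  have hMm : max (|(X : ℝ)| ^ 3) (|(Y : ℝ)| ^ 3) = m ^ 3 := by
    rw [hm]
    rcases le_total |(X : ℝ)| |(Y : ℝ)| with h | h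
    · rw [max_eq_right h, max_eq_right (pow_le_pow_left₀ (abs_nonneg _) h 3)]
    · rw [max_eq_left h, max_eq_left (pow_le_pow_left₀ (abs_nonneg _) h 3)]
  have hXm : |(X : ℝ)| ≤ m := le_max_left _ _
  have hYm : |(Y : ℝ)| ≤ m := le_max_right _ _
  have hml : (c : ℝ) ^ 3 / 4 ≤ m := by
    have h1 : (q : ℝ) ^ 3 ≤ m ^ 2 := by
      have h2 : (X : ℝ) ^ 2 ≤ m ^ 2 := by rw [← sq_abs]; exact pow_le_pow_left₀ (abs_nonneg _) hXm 2
      have h3 : (Y : ℝ) ^ 2 ≤ m ^ 2 := by rw [← sq_abs]; exact pow_le_pow_left₀ (abs_nonneg _) hYm 2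
      have h4 : (X : ℝ) * Y ≤ m ^ 2 := by
        calc (X : ℝ) * Y ≤ |(X : ℝ) * Y| := le_abs_self _
          _ = |(X : ℝ)| * |(Y : ℝ)| := abs_mul _ _
          _ ≤ m * m := mul_le_mul hXm hYm (abs_nonneg _) hm0
          _ = m ^ 2 := by ring
      linarith
    have h2 : ((c : ℝ) ^ 2 / 2) ^ 3 ≤ (q : ℝ) ^ 3 := pow_le_pow_left₀ (by positivity) hqc2 3
    have h3 : ((c : ℝ) ^ 3 / 4) ^ 2 ≤ m ^ 2 := by
      calc ((c : ℝ) ^ 3 / 4) ^ 2 = (c : ℝ) ^ 6 / 16 := by ring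
        _ ≤ (c : ℝ) ^ 6 / 8 := by have := pow_pos hcR 6; linarith
        _ = ((c : ℝ) ^ 2 / 2) ^ 3 := by ring
        _ ≤ m ^ 2 := h2.trans h1
    exact (abs_le_of_sq_le_sq' h3 hm0).2
  have hmu : m ≤ 2 * (c : ℝ) ^ 3 := by
    have h1 : ∀ z w : ℝ, z ^ 2 + z * w + w ^ 2 = 3 * (q : ℝ) ^ 3 → |z| ≤ 2 * (c : ℝ) ^ 3 := by
      intro z w h
      apply abs_le_of_sq_le_sq _ (by positivity)
      have h2 : z ^ 2 ≤ 4 * (q : ℝ) ^ 3 := by nlinarith [sq_nonneg (z + 2 * w)]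
      have h3 : (q : ℝ) ^ 3 ≤ ((c : ℝ) ^ 2) ^ 3 := pow_le_pow_left₀ hqR0.le hqc 3
      calc z ^ 2 ≤ 4 * (q : ℝ) ^ 3 := h2
        _ ≤ 4 * ((c : ℝ) ^ 2) ^ 3 := by linarith
        _ = (2 * (c : ℝ) ^ 3) ^ 2 := by ring
    exact max_le (h1 X Y hquadR) (h1 Y X (by linarith))
  refine ⟨X, Y, hXY, hne, ?_, ?_, ?_⟩
  · rw [hF]
    have h1 : (N : ℤ) ∣ a * b * c := (Dvd.intro_left _ rfl).trans hNZ
    exact (h1.mul_left _).mul_right _
  · have hqn : q.natAbs ≠ 0 := Int.natAbs_ne_zero.2 hq0.ne'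
    apply finish (g := 3 * q.natAbs) (P_pos ha hb hc).le hne (by omega) (by positivity)
    · intro ℓ hℓ hd
      have e1 : (X ^ 3 - Y ^ 3).natAbs = 3 ^ 3 * (a * b * c) * q.natAbs ^ 3 := by
        rw [hF, Int.natAbs_mul, Int.natAbs_pow, show (27 * ((a : ℤ) * b * c)) =
          ((3 ^ 3 * (a * b * c) : ℕ) : ℤ) by push_cast; ring, Int.natAbs_natCast]
      rw [e1] at hd
      rcases (Nat.Prime.dvd_mul hℓ).1 hd with h | h
      · rcases (Nat.Prime.dvd_mul hℓ).1 h with h | h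
        · exact ((hℓ.dvd_of_dvd_pow h).mul_right _).mul_left _
        · exact h.mul_right _
      · exact ((hℓ.dvd_of_dvd_pow h).mul_left _).mul_left _
    · have hA : (0 : ℝ) < ((a * b * c : ℕ) : ℝ) := by push_cast; positivity
      have hn := num (e := 1 / 3) (c := (c : ℝ)) (A := ((a * b * c : ℕ) : ℝ))
        (F := |(X : ℝ) ^ 3 - (Y : ℝ) ^ 3|) (M := m ^ 3) (κ₁ := 1)
        (κ₂ := 1 / 64) (s := 6) (d := 9) (t := 3 - 3 * l) h0 (by linarith) (by linarith) (by norm_num)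
        hc1 hA one_pos le_rfl (by norm_num) (by norm_num) (by
          rw [hFR]
          have h2 : (c : ℝ) ^ (6 : ℝ) = (c : ℝ) ^ (6 : ℕ) := by
            rw [← Real.rpow_natCast]; norm_num
          rw [h2]
          push_cast
          have h3 : ((c : ℝ) ^ 2 / 2) ^ 3 ≤ (q : ℝ) ^ 3 := pow_le_pow_left₀ (by positivity) hqc2 3
          have h4 : (0 : ℝ) < (a : ℝ) * b * c := by positivity
          calc 1 * ((a : ℝ) * b * c * (c : ℝ) ^ 6) ≤ 27 * (a * b * c) * ((c : ℝ) ^ 2 / 2) ^ 3 := by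
                have h5 : (0 : ℝ) < a * b * c * (c : ℝ) ^ 6 := by positivity
                nlinarith
            _ ≤ 27 * (a * b * c) * (q : ℝ) ^ 3 := mul_le_mul_of_nonneg_left h3 (by positivity)) (by
          have h2 : (c : ℝ) ^ (9 : ℝ) = (c : ℝ) ^ (9 : ℕ) := by
            rw [← Real.rpow_natCast]; norm_num
          rw [h2]
          have h3 : ((c : ℝ) ^ 3 / 4) ^ 3 ≤ m ^ 3 := pow_le_pow_left₀ (by positivity) hml 3
          refine le_trans (le_of_eq ?_) h3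
          ring) (by ring)
      have e1 : (1 : ℝ) - 1 / ((3 : ℕ) : ℝ) - 1 / ((3 : ℕ) : ℝ) - l = 1 / 3 - l := by push_cast; ring
      rw [e1, hMm]
      unfold P
      have e6 : (q.natAbs : ℝ) = q := by rw [Nat.cast_natAbs, abs_of_pos hq0]
      have e7 : (c : ℝ) ^ (3 - 3 * l) = (c : ℝ) ^ 2 * (c : ℝ) ^ (1 - 3 * l) := by
        rw [← Real.rpow_natCast, ← Real.rpow_add hcR]
        congr 1; push_cast; ring
      have hAl : (0 : ℝ) < ((a * b * c : ℕ) : ℝ) ^ l * (c : ℝ) ^ (1 - 3 * l) := by positivity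
      calc ((3 * q.natAbs : ℕ) : ℝ) * (((a * b * c : ℕ) : ℝ) ^ l * (c : ℝ) ^ (1 - 3 * l))
          = 3 * q * (((a * b * c : ℕ) : ℝ) ^ l * (c : ℝ) ^ (1 - 3 * l)) := by rw [← e6]; push_cast; ring
        _ ≤ 3 * (c : ℝ) ^ 2 * (((a * b * c : ℕ) : ℝ) ^ l * (c : ℝ) ^ (1 - 3 * l)) :=
            mul_le_mul_of_nonneg_right (by linarith) hAl.le
        _ = 3 * 64 * (1 * (1 / 64) * (((a * b * c : ℕ) : ℝ) ^ l * (c : ℝ) ^ (3 - 3 * l))) := by
            rw [e7]; ring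
        _ ≤ 3 * 64 * (|(X : ℝ) ^ 3 - (Y : ℝ) ^ 3| ^ l * (m ^ 3) ^ (1 / 3 - l)) :=
            mul_le_mul_of_nonneg_left hn (by norm_num)
        _ ≤ 3 * 64 * 64 * (|(X : ℝ) ^ 3 - (Y : ℝ) ^ 3| ^ l * (m ^ 3) ^ (1 / 3 - l)) :=
            mul_le_mul_of_nonneg_right (by norm_num) (by positivity)
  · rw [hMm]
    calc m ^ 3 ≤ (2 * (c : ℝ) ^ 3) ^ 3 := pow_le_pow_left₀ hm0 hmu 3
      _ = 8 * (c : ℝ) ^ 9 := by ring
      _ ≤ 3 * 64 * 64 * (c : ℝ) ^ 9 := by have := pow_pos hcR 9; linarith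

end Pool.Agent.N757.SC
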