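import Mathlib
import Pool.Agent.N757.SC.Cases

/-!
# Szpiro's inequality and the radical of `x ^ p - y ^ q`: the maps for (3,2) and (4,4)
-/

set_option autoImplicit false

namespace Pool.Agent.N757.SC

open Finset Pool.Agent.N757.SZ

/-- size of the maximum for `(3, 2)` -/
theorem size32 {a b c : ℝ} (ha : 0 < a) (hb : 0 < b) (hc : c = a + b) :
    c ^ 6 / 64 ≤ max (|c ^ 2 - 16 * (a * b)| ^ 3) (|(a - b) * (c ^ 2 + 32 * (a * b))| ^ 2) := by
  have hc0 : 0 < c := by rw [hc]; positivity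
  have hp : 4 * (a * b) ≤ c ^ 2 := by rw [hc]; nlinarith [sq_nonneg (a - b)]
  have hsq : (a - b) ^ 2 = c ^ 2 - 4 * (a * b) := by rw [hc]; ring
  have hp0 : 0 < a * b := mul_pos ha hb
  set p := a * b with hpd
  have hc2 : 0 < c ^ 2 := by positivity
  by_cases h1 : c ^ 2 / 4 ≤ |c ^ 2 - 16 * p|
  · refine le_trans ?_ (le_max_left _ _)
    have h2 : (c ^ 2 / 4) ^ 3 ≤ |c ^ 2 - 16 * p| ^ 3 := pow_le_pow_left₀ (by positivity) h1 3
    refine le_trans (le_of_eq ?_) h2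
    ring
  · push Not at h1
    rw [abs_lt] at h1
    refine le_trans ?_ (le_max_right _ _)
    rw [sq_abs, mul_pow, hsq]
    have h2 : 11 / 16 * c ^ 2 ≤ c ^ 2 - 4 * p := by linarith
    have h3 : c ^ 2 ≤ c ^ 2 + 32 * p := by linarith
    have h4 : (c ^ 2) ^ 2 ≤ (c ^ 2 + 32 * p) ^ 2 := pow_le_pow_left₀ hc2.le h3 2
    calc c ^ 6 / 64 ≤ 11 / 16 * c ^ 2 * (c ^ 2) ^ 2 := by
          have : 0 < c ^ 6 := by positivity
          nlinarith
      _ ≤ (c ^ 2 - 4 * p) * (c ^ 2 + 32 * p) ^ 2 :=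
          mul_le_mul h2 h4 (by positivity) (by linarith)

theorem map32 {l : ℝ} (h0 : 0 ≤ l) (h6 : l ≤ 1 / 6) (N : ℕ) (hN : 1 ≤ N) : Map l 3 2 N := by
  refine ⟨24 * N, by omega, fun K₀ _ => ⟨6 * 4096 * 4096 * 64, 6, by norm_num, by norm_num, ?_⟩⟩
  intro a b c ha hb hab habc hdvd _
  obtain ⟨hcab, cab, cac, cbc⟩ := triple hab habc
  have hc : 0 < c := by omega
  have ha0 : (0 : ℤ) < a := by exact_mod_cast ha
  have hb0 : (0 : ℤ) < b := by exact_mod_cast hb
  have hc0 : (0 : ℤ) < c := by exact_mod_cast hc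
  have haR : (0 : ℝ) < a := by exact_mod_cast ha
  have hbR : (0 : ℝ) < b := by exact_mod_cast hb
  have hcR : (0 : ℝ) < c := by exact_mod_cast hc
  have hc1 : (1 : ℝ) ≤ c := by exact_mod_cast hc
  have hsumR : (c : ℝ) = a + b := by exact_mod_cast hcab
  have hNZ : (24 * N : ℤ) ∣ a * b * c := by exact_mod_cast hdvd
  have h3abc : (3 : ℤ) ∣ a * b * c := Dvd.dvd.trans (⟨8 * N, by ring⟩ : (3 : ℤ) ∣ 24 * N) hNZ
  -- the pair
  obtain ⟨x, y, s, hs, hxy, hx, hy, hF0, hNF, hprime⟩ : ∃ x y : ℤ, ∃ s : ℕ, (s = 1 ∨ s = 4) ∧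
      IsCoprime x y ∧ (s : ℤ) ^ 2 * x = c ^ 2 - 16 * (a * b) ∧
      (s : ℤ) ^ 3 * y = (a - b) * (c ^ 2 + 32 * (a * b)) ∧
      x ^ 3 - y ^ 2 ≠ 0 ∧ (N : ℤ) ∣ x ^ 3 - y ^ 2 ∧
      ∀ ℓ : ℕ, ℓ.Prime → ℓ ∣ (x ^ 3 - y ^ 2).natAbs → ℓ ∣ a * b * c * 6 := by
    rcases Int.even_or_odd (c : ℤ) with hev | hodd
    · -- `8 ∣ c`
      have h2a : IsCoprime (2 : ℤ) (a : ℤ) := (cac.of_isCoprime_of_dvd_right hev.two_dvd).symm
      have h2b : IsCoprime (2 : ℤ) (b : ℤ) := (cbc.of_isCoprime_of_dvd_right hev.two_dvd).symm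
      have h8c : (8 : ℤ) ∣ c := by
        have h1 : (8 : ℤ) ∣ a * b * c := Dvd.dvd.trans (⟨3 * N, by ring⟩ : (8 : ℤ) ∣ 24 * N) hNZ
        have h2 : IsCoprime (8 : ℤ) (a * b) := by
          have : IsCoprime (2 ^ 3 : ℤ) (a * b) := (h2a.mul_right h2b).pow_left
          norm_num at this
          exact this
        exact h2.dvd_of_dvd_mul_left h1
      obtain ⟨C, hC⟩ := h8c
      have hC0 : 0 < C := by omega
      set e : ℤ := 4 * C - b with he
      have hae : (a : ℤ) = 4 * C + e := by rw [he]; linarith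
      have hbe : (b : ℤ) = 4 * C - e := by rw [he]; ring
      have hCc : C ∣ (c : ℤ) := ⟨8, by rw [hC]; ring⟩
      have haC : IsCoprime (a : ℤ) C := cac.of_isCoprime_of_dvd_right hCc
      have hbC : IsCoprime (b : ℤ) C := cbc.of_isCoprime_of_dvd_right hCc
      set X : ℤ := 4 * C ^ 2 - a * b with hX
      have haX : IsCoprime (a : ℤ) X := by
        have h1 : IsCoprime (a : ℤ) (2 ^ 2 * C ^ 2) := (h2a.symm.pow_right).mul_right haC.pow_right
        have := h1.add_mul_left_right (-b)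
        rwa [show 2 ^ 2 * C ^ 2 + (a : ℤ) * -b = X by rw [hX]; ring] at this
      have hbX : IsCoprime (b : ℤ) X := by
        have h1 : IsCoprime (b : ℤ) (2 ^ 2 * C ^ 2) := (h2b.symm.pow_right).mul_right hbC.pow_right
        have := h1.add_mul_left_right (-a)
        rwa [show 2 ^ 2 * C ^ 2 + (b : ℤ) * -a = X by rw [hX]; ring] at this
      have hCX : IsCoprime C X := by
        have h1 : IsCoprime C (-(a * b : ℤ)) := (haC.symm.mul_right hbC.symm).neg_right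
        have := h1.add_mul_left_right (4 * C)
        rwa [show -(a * b : ℤ) + C * (4 * C) = X by rw [hX]; ring] at this
      have h2X : IsCoprime (2 : ℤ) X := by
        have h1 : IsCoprime (2 : ℤ) (-(a * b : ℤ)) := (h2a.mul_right h2b).neg_right
        have := h1.add_mul_left_right (2 * C ^ 2)
        rwa [show -(a * b : ℤ) + 2 * (2 * C ^ 2) = X by rw [hX]; ring] at this
      have h3X : IsCoprime (3 : ℤ) X := by
        rcases Int.prime_three.dvd_or_dvd h3abc with h | h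
        · rcases Int.prime_three.dvd_or_dvd h with h | h
          · exact haX.of_isCoprime_of_dvd_left h
          · exact hbX.of_isCoprime_of_dvd_left h
        · rw [hC] at h
          have h38 : IsCoprime (3 : ℤ) 8 := by norm_num
          exact hCX.of_isCoprime_of_dvd_left (h38.dvd_of_dvd_mul_left h)
      set Y : ℤ := e * (2 * C ^ 2 + a * b) with hY
      have hF : X ^ 3 - Y ^ 2 = -(108 * (a * b * C ^ 4)) := by
        rw [hX, hY, hae, hbe]; ring
      have hXY : IsCoprime X Y := by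
        have h1 : IsCoprime (2 ^ 2 * 3 ^ 3 * (a * b * C ^ 4)) X :=
          (h2X.pow_left.mul_left h3X.pow_left).mul_left ((haX.mul_left hbX).mul_left hCX.pow_left)
        have h2 := h1.symm.add_mul_left_right (X ^ 2)
        rw [show 2 ^ 2 * 3 ^ 3 * (a * b * C ^ 4) + X * X ^ 2 = Y ^ 2 by linear_combination hF] at h2
        exact h2.of_isCoprime_of_dvd_right (dvd_pow_self Y (by norm_num))
      refine ⟨X, Y, 4, Or.inr rfl, hXY, ?_, ?_, ?_, ?_, ?_⟩
      · rw [hX, hC]; push_cast; ring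
      · rw [hY, hC, hae, hbe]; push_cast; ring
      · rw [hF]
        have : (0 : ℤ) < 108 * (a * b * C ^ 4) := by positivity
        omega
      · rw [hF]
        have h1 : (8 * (3 * N) : ℤ) ∣ 8 * (a * b * C) := by
          have : (8 * (3 * N) : ℤ) = 24 * N := by ring
          rw [this]
          have h2 : (8 * (a * b * C) : ℤ) = a * b * c := by rw [hC]; ring
          rw [h2]; exact hNZ
        have h2 : (3 * N : ℤ) ∣ a * b * C := Int.dvd_of_mul_dvd_mul_left (by norm_num) h1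
        have h3 : (N : ℤ) ∣ a * b * C := (Dvd.intro_left _ rfl).trans h2
        refine Dvd.dvd.neg_right (h3.trans ⟨108 * C ^ 3, by ring⟩)
      · intro ℓ hℓ hd
        have h1 : (ℓ : ℤ) ∣ 108 * (a * b * C ^ 4) := by
          rw [hF, Int.natAbs_neg] at hd
          exact Int.natCast_dvd.2 hd
        have h2 : (ℓ : ℤ) ∣ (a * b * c * 6) ^ 4 := by
          refine h1.trans ⟨(a * b) ^ 3 * 8 ^ 4 * 12, ?_⟩
          rw [hC]; ring
        have h3 : ℓ ∣ (a * b * c * 6) ^ 4 := by exact_mod_cast h2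
        exact hℓ.dvd_of_dvd_pow h3
    · set X : ℤ := c ^ 2 - 16 * (a * b) with hX
      have h2c : IsCoprime (2 : ℤ) (c : ℤ) := Int.isCoprime_two_left.2 hodd
      have haX : IsCoprime (a : ℤ) X := by
        have h1 : IsCoprime (a : ℤ) ((c : ℤ) ^ 2) := cac.pow_right
        have := h1.add_mul_left_right (-16 * b)
        rwa [show (c : ℤ) ^ 2 + a * (-16 * b) = X by rw [hX]; ring] at this
      have hbX : IsCoprime (b : ℤ) X := by
        have h1 : IsCoprime (b : ℤ) ((c : ℤ) ^ 2) := cbc.pow_right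
        have := h1.add_mul_left_right (-16 * a)
        rwa [show (c : ℤ) ^ 2 + b * (-16 * a) = X by rw [hX]; ring] at this
      have hcX : IsCoprime (c : ℤ) X := by
        have h1 : IsCoprime (c : ℤ) (-(2 ^ 4 * (a * b))) :=
          (h2c.symm.pow_right.mul_right (cac.symm.mul_right cbc.symm)).neg_right
        have := h1.add_mul_left_right c
        rwa [show -(2 ^ 4 * (a * b : ℤ)) + c * c = X by rw [hX]; ring] at this
      have h2X : IsCoprime (2 : ℤ) X := by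
        have h1 : IsCoprime (2 : ℤ) ((c : ℤ) ^ 2) := h2c.pow_right
        have := h1.add_mul_left_right (-8 * (a * b))
        rwa [show (c : ℤ) ^ 2 + 2 * (-8 * (a * b)) = X by rw [hX]; ring] at this
      have h3X : IsCoprime (3 : ℤ) X := by
        rcases Int.prime_three.dvd_or_dvd h3abc with h | h
        · rcases Int.prime_three.dvd_or_dvd h with h | h
          · exact haX.of_isCoprime_of_dvd_left h
          · exact hbX.of_isCoprime_of_dvd_left h
        · exact hcX.of_isCoprime_of_dvd_left h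
      set Y : ℤ := (a - b) * (c ^ 2 + 32 * (a * b)) with hY
      have hF : X ^ 3 - Y ^ 2 = -(108 * (a * b * c ^ 4)) := by
        rw [hX, hY, hcab]; ring
      have hXY : IsCoprime X Y := by
        have h1 : IsCoprime (2 ^ 2 * 3 ^ 3 * (a * b * c ^ 4) : ℤ) X :=
          (h2X.pow_left.mul_left h3X.pow_left).mul_left ((haX.mul_left hbX).mul_left hcX.pow_left)
        have h2 := h1.symm.add_mul_left_right (X ^ 2)
        rw [show 2 ^ 2 * 3 ^ 3 * (a * b * c ^ 4 : ℤ) + X * X ^ 2 = Y ^ 2 by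
          linear_combination hF] at h2
        exact h2.of_isCoprime_of_dvd_right (dvd_pow_self Y (by norm_num))
      refine ⟨X, Y, 1, Or.inl rfl, hXY, ?_, ?_, ?_, ?_, ?_⟩
      · rw [hX]; push_cast; ring
      · rw [hY]; push_cast; ring
      · rw [hF]
        have : (0 : ℤ) < 108 * (a * b * c ^ 4) := by positivity
        omega
      · rw [hF]
        have h1 : (N : ℤ) ∣ a * b * c := (Dvd.intro_left _ rfl).trans hNZ
        refine Dvd.dvd.neg_right (h1.trans ⟨108 * c ^ 3, by ring⟩)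
      · intro ℓ hℓ hd
        have h1 : (ℓ : ℤ) ∣ 108 * (a * b * c ^ 4) := by
          rw [hF, Int.natAbs_neg] at hd
          exact Int.natCast_dvd.2 hd
        have h2 : (ℓ : ℤ) ∣ (a * b * c * 6) ^ 4 := h1.trans ⟨(a * b) ^ 3 * 12, by ring⟩
        have h3 : ℓ ∣ (a * b * c * 6) ^ 4 := by exact_mod_cast h2
        exact hℓ.dvd_of_dvd_pow h3
  have hne : x ^ 3 ≠ y ^ 2 := fun h => hF0 (sub_eq_zero.2 h)
  -- sizes
  have hs1 : (1 : ℝ) ≤ s := by rcases hs with h | h <;> rw [h] <;> norm_num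
  have hs4 : (s : ℝ) ≤ 4 := by rcases hs with h | h <;> rw [h] <;> norm_num
  have hs0 : (0 : ℝ) < s := by linarith
  have hxR : (s : ℝ) ^ 2 * x = c ^ 2 - 16 * (a * b) := by exact_mod_cast hx
  have hyR : (s : ℝ) ^ 3 * y = (a - b) * (c ^ 2 + 32 * (a * b)) := by exact_mod_cast hy
  have hFs : (s : ℝ) ^ 6 * |(x : ℝ) ^ 3 - (y : ℝ) ^ 2| = 108 * (a * b * (c : ℝ) ^ 4) := by
    have h1 : (s : ℝ) ^ 6 * ((x : ℝ) ^ 3 - (y : ℝ) ^ 2) = -(108 * (a * b * (c : ℝ) ^ 4)) := by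
      have : (s : ℝ) ^ 6 * ((x : ℝ) ^ 3 - (y : ℝ) ^ 2) = ((s : ℝ) ^ 2 * x) ^ 3 - ((s : ℝ) ^ 3 * y) ^ 2 := by
        ring
      rw [this, hxR, hyR, hsumR]; ring
    calc (s : ℝ) ^ 6 * |(x : ℝ) ^ 3 - (y : ℝ) ^ 2| = |(s : ℝ) ^ 6 * ((x : ℝ) ^ 3 - (y : ℝ) ^ 2)| := by
          rw [abs_mul, abs_of_pos (by positivity : (0 : ℝ) < (s : ℝ) ^ 6)]
      _ = _ := by rw [h1, abs_neg, abs_of_pos (by positivity)]
  set M : ℝ := max (|(x : ℝ)| ^ 3) (|(y : ℝ)| ^ 2) with hM
  have hMs : max (|(c : ℝ) ^ 2 - 16 * (a * b)| ^ 3) (|((a : ℝ) - b) * (c ^ 2 + 32 * (a * b))| ^ 2) =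
      (s : ℝ) ^ 6 * M := by
    rw [← hxR, ← hyR, abs_mul, abs_mul, abs_of_pos (by positivity : (0 : ℝ) < (s : ℝ) ^ 2),
      abs_of_pos (by positivity : (0 : ℝ) < (s : ℝ) ^ 3), hM, mul_pow, mul_pow,
      mul_max_of_nonneg _ _ (by positivity : (0 : ℝ) ≤ (s : ℝ) ^ 6)]
    congr 1 <;> ring
  have hs6 : (s : ℝ) ^ 6 ≤ 4096 := by
    calc (s : ℝ) ^ 6 ≤ 4 ^ 6 := pow_le_pow_left₀ hs0.le hs4 6
      _ = 4096 := by norm_num
  have hs61 : (1 : ℝ) ≤ (s : ℝ) ^ 6 := one_le_pow₀ hs1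
  have hMn : 0 ≤ M := le_trans (by positivity) (le_max_left _ _)
  have hMl : 1 / (64 * 4096) * (c : ℝ) ^ (6 : ℝ) ≤ M := by
    have h1 := size32 haR hbR hsumR
    rw [hMs] at h1
    have h2 : (c : ℝ) ^ (6 : ℝ) = (c : ℝ) ^ (6 : ℕ) := by rw [← Real.rpow_natCast]; norm_num
    rw [h2]
    have h3 : (s : ℝ) ^ 6 * M ≤ 4096 * M := mul_le_mul_of_nonneg_right hs6 hMn
    linarith
  have hp4 : 4 * ((a : ℝ) * b) ≤ (c : ℝ) ^ 2 := by rw [hsumR]; nlinarith [sq_nonneg ((a : ℝ) - b)]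
  have hMu : M ≤ 81 * (c : ℝ) ^ 6 := by
    have h1 : max (|(c : ℝ) ^ 2 - 16 * (a * b)| ^ 3) (|((a : ℝ) - b) * (c ^ 2 + 32 * (a * b))| ^ 2) ≤
        81 * (c : ℝ) ^ 6 := by
      apply max_le
      · have h2 : |(c : ℝ) ^ 2 - 16 * (a * b)| ≤ 3 * (c : ℝ) ^ 2 := by
          rw [abs_le]; constructor
          · nlinarith
          · nlinarith [mul_pos haR hbR]
        calc |(c : ℝ) ^ 2 - 16 * (a * b)| ^ 3 ≤ (3 * (c : ℝ) ^ 2) ^ 3 :=
              pow_le_pow_left₀ (abs_nonneg _) h2 3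
          _ = 27 * (c : ℝ) ^ 6 := by ring
          _ ≤ _ := by have := pow_pos hcR 6; linarith
      · have h2 : |(a : ℝ) - b| ≤ c := by rw [abs_le]; constructor <;> linarith
        have h3 : |(c : ℝ) ^ 2 + 32 * (a * b)| ≤ 9 * (c : ℝ) ^ 2 := by
          rw [abs_of_pos (by positivity)]; linarith
        rw [abs_mul]
        calc (|(a : ℝ) - b| * |(c : ℝ) ^ 2 + 32 * (a * b)|) ^ 2 ≤ (c * (9 * (c : ℝ) ^ 2)) ^ 2 :=
              pow_le_pow_left₀ (by positivity) (mul_le_mul h2 h3 (abs_nonneg _) hcR.le) 2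
          _ = 81 * (c : ℝ) ^ 6 := by ring
    rw [hMs] at h1
    nlinarith
  refine ⟨x, y, hxy, hne, hNF, ?_, ?_⟩
  · apply finish (g := 6) (P_pos ha hb hc).le hne (by norm_num) (by positivity) hprime
    have hA : (0 : ℝ) < ((a * b * c : ℕ) : ℝ) := by push_cast; positivity
    have hn := num (e := 1 / 6) (c := (c : ℝ)) (A := ((a * b * c : ℕ) : ℝ))
        (F := |(x : ℝ) ^ 3 - (y : ℝ) ^ 2|) (M := M) (κ₁ := 1 / 4096)
        (κ₂ := 1 / (64 * 4096)) (s := 3) (d := 6) (t := 1 - 3 * l) h0 (by linarith) (by linarith)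
        (by norm_num) hc1 hA (by norm_num) (by norm_num) (by norm_num) (by norm_num) (by
          have h2 : (c : ℝ) ^ (3 : ℝ) = (c : ℝ) ^ (3 : ℕ) := by
            rw [← Real.rpow_natCast]; norm_num
          rw [h2]
          push_cast
          have h3 : (s : ℝ) ^ 6 * |(x : ℝ) ^ 3 - (y : ℝ) ^ 2| ≤ 4096 * |(x : ℝ) ^ 3 - (y : ℝ) ^ 2| :=
            mul_le_mul_of_nonneg_right hs6 (abs_nonneg _)
          rw [hFs] at h3
          have h4 : (0 : ℝ) < a * b * (c : ℝ) ^ 4 := by positivity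
          have h5 : (a : ℝ) * b * c * (c : ℝ) ^ 3 = a * b * (c : ℝ) ^ 4 := by ring
          rw [h5]
          linarith) hMl (by ring)
    have e1 : (1 : ℝ) - 1 / ((3 : ℕ) : ℝ) - 1 / ((2 : ℕ) : ℝ) - l = 1 / 6 - l := by push_cast; ring
    rw [e1]
    unfold P
    push_cast at hn ⊢
    linarith
  · have := pow_pos hcR 6
    linarith

end Pool.Agent.N757.SC
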