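import Mathlib
import Pool.Agent.N757.SC.Cases

/-!
# Szpiro's inequality and the radical of `x ^ p - y ^ q`: the map for (4,4)
-/

set_option autoImplicit false

namespace Pool.Agent.N757.SC

open Finset Pool.Agent.N757.SZ

/-- the pair `U, V` -/
theorem pairUV {a b c N : ℕ} (ha : 0 < a) (hb : 0 < b) (hab : a.Coprime b) (habc : a + b = c)
    (hdvd : 4 * N ∣ a * b * c) : ∃ U V : ℤ, ∃ h₁ Q : ℕ, IsCoprime U V ∧ Odd (V ^ 2 - U ^ 2) ∧
      U ^ 2 + V ^ 2 = (Q : ℤ) ^ 2 ∧ (U * V).natAbs = a * b * c * h₁ ∧ 0 < h₁ ∧ h₁ ≤ 2 * c ∧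
      c ^ 2 ≤ 4 * Q ∧ Q ≤ c ^ 2 := by
  obtain ⟨hcab, cab, cac, cbc⟩ := triple hab habc
  have hc : 0 < c := by omega
  have ha0 : (0 : ℤ) < a := by exact_mod_cast ha
  have hb0 : (0 : ℤ) < b := by exact_mod_cast hb
  have hc0 : (0 : ℤ) < c := by exact_mod_cast hc
  have hNZ : (4 * N : ℤ) ∣ a * b * c := by exact_mod_cast hdvd
  have hba : (b : ℤ) - a ≠ 0 := by
    intro h
    have h1 : b = a := by omega
    have h2 : a = 1 := by
      rw [h1, Nat.coprime_self] at hab; exact hab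
    rw [← habc, h1, h2] at hdvd
    have h3 : 4 ∣ 1 * 1 * (1 + 1) := (Dvd.intro _ rfl).trans hdvd
    omega
  have hba' : 0 < ((b : ℤ) - a).natAbs := Int.natAbs_pos.2 hba
  have abm : IsCoprime (a : ℤ) (b - a : ℤ) := by
    have := cab.add_mul_left_right (-1)
    rwa [show (b : ℤ) + a * -1 = b - a by ring] at this
  have bbm : IsCoprime (b : ℤ) (b - a : ℤ) := by
    have := cab.symm.neg_right.add_mul_left_right 1
    rwa [show -(a : ℤ) + b * 1 = b - a by ring] at this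
  rcases Int.even_or_odd (c : ℤ) with hev | hodd
  · have h2a : IsCoprime (2 : ℤ) (a : ℤ) := (cac.of_isCoprime_of_dvd_right hev.two_dvd).symm
    have h2b : IsCoprime (2 : ℤ) (b : ℤ) := (cbc.of_isCoprime_of_dvd_right hev.two_dvd).symm
    have h4c : (4 : ℤ) ∣ c := by
      have h1 : (4 : ℤ) ∣ a * b * c := (Dvd.intro _ rfl).trans hNZ
      have h2 : IsCoprime (4 : ℤ) (a * b) := by
        have : IsCoprime (2 ^ 2 : ℤ) (a * b) := (h2a.mul_right h2b).pow_left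
        norm_num at this
        exact this
      exact h2.dvd_of_dvd_mul_left h1
    obtain ⟨C, hC⟩ := h4c
    set e : ℤ := 2 * C - a with he
    have hae : (a : ℤ) = 2 * C - e := by rw [he]; ring
    have hbe : (b : ℤ) = 2 * C + e := by rw [he]; linarith
    have he2 : (b : ℤ) - a = 2 * e := by rw [hae, hbe]; ring
    have he0 : e ≠ 0 := by
      intro h; rw [h] at he2; exact hba (by rw [he2]; ring)
    have hU : IsCoprime (a * b : ℤ) (c * e) := by
      have h1 : IsCoprime (a : ℤ) e := abm.of_isCoprime_of_dvd_right ⟨2, by rw [he2]; ring⟩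
      have h2 : IsCoprime (b : ℤ) e := bbm.of_isCoprime_of_dvd_right ⟨2, by rw [he2]; ring⟩
      exact (cac.mul_right h1).mul_left (cbc.mul_right h2)
    have hoa : Odd (a : ℤ) := Int.isCoprime_two_left.1 h2a
    have hob : Odd (b : ℤ) := Int.isCoprime_two_left.1 h2b
    refine ⟨a * b, c * e, e.natAbs, (4 * C ^ 2 + e ^ 2).natAbs, hU, ?_, ?_, ?_, ?_, ?_, ?_, ?_⟩
    · have h1 : Even ((c : ℤ) * e) := hev.mul_right _
      have h2 : Odd ((a : ℤ) * b) := hoa.mul hob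
      exact (h1.pow_of_ne_zero (by norm_num)).sub_odd h2.pow
    · rw [Int.natAbs_of_nonneg (by positivity), hae, hbe, hC]; ring
    · rw [Int.natAbs_mul, Int.natAbs_mul, Int.natAbs_mul, Int.natAbs_natCast, Int.natAbs_natCast,
        Int.natAbs_natCast]; ring
    · exact Int.natAbs_pos.2 he0
    · omega
    · have h1 : ((c ^ 2 : ℕ) : ℤ) ≤ ((4 * (4 * C ^ 2 + e ^ 2).natAbs : ℕ) : ℤ) := by
        push_cast
        rw [abs_of_nonneg (by positivity), hC]
        nlinarith [sq_nonneg e]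
      exact_mod_cast h1
    · have h1 : (((4 * C ^ 2 + e ^ 2).natAbs : ℕ) : ℤ) ≤ ((c ^ 2 : ℕ) : ℤ) := by
        push_cast
        rw [abs_of_nonneg (by positivity), hC]
        nlinarith [mul_pos ha0 hb0]
      exact_mod_cast h1
  · have h2c : IsCoprime (2 : ℤ) (c : ℤ) := Int.isCoprime_two_left.2 hodd
    have hobm : Odd ((b : ℤ) - a) := by
      rw [show (b : ℤ) - a = c - 2 * a by rw [hcab]; ring]
      exact hodd.sub_even (even_two_mul _)
    have h2m : IsCoprime (2 : ℤ) (b - a : ℤ) := Int.isCoprime_two_left.2 hobm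
    refine ⟨2 * (a * b), c * (b - a), 2 * ((b : ℤ) - a).natAbs, a ^ 2 + b ^ 2, ?_, ?_, ?_, ?_, ?_,
      ?_, ?_, ?_⟩
    · exact (h2c.mul_right h2m).mul_left ((cac.mul_right abm).mul_left (cbc.mul_right bbm))
    · have h1 : Even (2 * ((a : ℤ) * b)) := even_two_mul _
      have h2 : Odd ((c : ℤ) * (b - a)) := hodd.mul hobm
      exact h2.pow.sub_even (h1.pow_of_ne_zero (by norm_num))
    · push_cast; rw [hcab]; ring
    · rw [Int.natAbs_mul, Int.natAbs_mul, Int.natAbs_mul, Int.natAbs_mul, Int.natAbs_natCast,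
        Int.natAbs_natCast, Int.natAbs_natCast]
      norm_num
      ring
    · omega
    · omega
    · rw [← habc]; nlinarith [sq_nonneg ((a : ℤ) - b), Nat.mul_le_mul_left a (le_refl b),
        Nat.zero_le (a * b), two_mul_le_add_sq a b]
    · rw [← habc]; nlinarith

theorem map44 {l : ℝ} (h0 : 0 ≤ l) (h6 : l ≤ 1 / 6) (N : ℕ) (hN : 1 ≤ N) : Map l 4 4 N := by
  refine ⟨4 * N, by omega, fun K₀ _ => ⟨4 * 16 * 65536, 16, by norm_num, by norm_num, ?_⟩⟩
  intro a b c ha hb hab habc hdvd _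
  obtain ⟨U, V, h₁, Q, hUV, hsodd, hW, hprod, hh1, hh1le, hQ1, hQ2⟩ := pairUV ha hb hab habc hdvd
  have hc : 0 < c := by omega
  have haR : (0 : ℝ) < a := by exact_mod_cast ha
  have hbR : (0 : ℝ) < b := by exact_mod_cast hb
  have hcR : (0 : ℝ) < c := by exact_mod_cast hc
  have hc1 : (1 : ℝ) ≤ c := by exact_mod_cast hc
  have hNZ : (4 * N : ℤ) ∣ a * b * c := by exact_mod_cast hdvd
  have hh0 : (0 : ℝ) < h₁ := by exact_mod_cast hh1
  have hQ0 : 0 < Q := by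
    rcases Nat.eq_zero_or_pos Q with h | h
    · rw [h] at hQ1
      have : 0 < c ^ 2 := by positivity
      omega
    · exact h
  have hQR : (0 : ℝ) < Q := by exact_mod_cast hQ0
  have hQ1R : (c : ℝ) ^ 2 ≤ 4 * Q := by exact_mod_cast hQ1
  have hQ2R : (Q : ℝ) ≤ (c : ℝ) ^ 2 := by exact_mod_cast hQ2
  have hhR : (h₁ : ℝ) ≤ 2 * c := by exact_mod_cast hh1le
  set s : ℤ := V ^ 2 - U ^ 2 with hs
  set t : ℤ := 2 * (U * V) with ht
  have hs0 : s ≠ 0 := by
    intro h; rw [h] at hsodd; exact absurd hsodd (by decide)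
  have hst : IsCoprime s t := by
    have h1 : IsCoprime s 2 := Int.isCoprime_two_right.2 hsodd
    have h2 : IsCoprime s U := by
      have h3 : IsCoprime (V ^ 2) U := hUV.symm.pow_left
      have := h3.add_mul_right_left (-U)
      rwa [show V ^ 2 + -U * U = s by rw [hs]; ring] at this
    have h3 : IsCoprime s V := by
      have h4 : IsCoprime (-U ^ 2) V := hUV.pow_left.neg_left
      have := h4.add_mul_right_left V
      rwa [show -U ^ 2 + V * V = s by rw [hs]; ring] at this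
    exact h1.mul_right (h2.mul_right h3)
  have hnorm : s ^ 2 + t ^ 2 = (Q : ℤ) ^ 4 := by
    have : s ^ 2 + t ^ 2 = (U ^ 2 + V ^ 2) ^ 2 := by rw [hs, ht]; ring
    rw [this, hW]; ring
  set x : ℤ := s + t with hx
  set y : ℤ := s - t with hy
  have hxy : IsCoprime x y := by
    have h1 : IsCoprime x t := by
      have := hst.add_mul_right_left 1
      rwa [one_mul] at this
    have hxo : Odd x := by
      rw [hx, ht]; exact hsodd.add_even (even_two_mul _)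
    have h2 : IsCoprime x 2 := Int.isCoprime_two_right.2 hxo
    have h3 : IsCoprime x (-(2 * t)) := (h2.mul_right h1).neg_right
    have := h3.add_mul_left_right 1
    rwa [show -(2 * t) + x * 1 = y by rw [hx, hy]; ring] at this
  have hF : x ^ 4 - y ^ 4 = 16 * (U * V) * s * (Q : ℤ) ^ 4 := by
    rw [← hnorm, hx, hy, ht]; ring
  have hsum : x ^ 2 + y ^ 2 = 2 * (Q : ℤ) ^ 4 := by
    rw [← hnorm, hx, hy]; ring
  have hFn : (x ^ 4 - y ^ 4).natAbs = 16 * (a * b * c * h₁) * s.natAbs * Q ^ 4 := by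
    rw [hF, Int.natAbs_mul, Int.natAbs_mul, Int.natAbs_mul, hprod, Int.natAbs_pow,
      Int.natAbs_natCast]
    norm_num
  have hsn : 0 < s.natAbs := Int.natAbs_pos.2 hs0
  have hFpos : 0 < (x ^ 4 - y ^ 4).natAbs := by
    rw [hFn]; positivity
  have hne : x ^ 4 ≠ y ^ 4 := by
    intro h; rw [h, sub_self] at hFpos; simp at hFpos
  set H : ℕ := h₁ * s.natAbs with hH
  have hH0 : 0 < H := Nat.mul_pos hh1 hsn
  have hHR0 : (0 : ℝ) < H := by exact_mod_cast hH0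
  have hFR : |(x : ℝ) ^ 4 - (y : ℝ) ^ 4| = 16 * (((a * b * c : ℕ) : ℝ) * H) * (Q : ℝ) ^ 4 := by
    have h1 : |(x : ℝ) ^ 4 - (y : ℝ) ^ 4| = ((x ^ 4 - y ^ 4).natAbs : ℝ) := by
      rw [Nat.cast_natAbs, Int.cast_abs]; push_cast; rfl
    rw [h1, hFn, hH]; push_cast; ring
  have hsR : (s.natAbs : ℝ) ≤ (c : ℝ) ^ 4 := by
    have h1 : |s| ≤ (Q : ℤ) ^ 2 := by
      rw [hs, abs_le, ← hW]; constructor <;> nlinarith [sq_nonneg U, sq_nonneg V]
    have h2 : (s.natAbs : ℝ) ≤ (Q : ℝ) ^ 2 := by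
      rw [Nat.cast_natAbs]; exact_mod_cast h1
    calc (s.natAbs : ℝ) ≤ (Q : ℝ) ^ 2 := h2
      _ ≤ ((c : ℝ) ^ 2) ^ 2 := pow_le_pow_left₀ hQR.le hQ2R 2
      _ = (c : ℝ) ^ 4 := by ring
  have hHR : (H : ℝ) ≤ 2 * (c : ℝ) ^ 5 := by
    rw [hH]; push_cast
    calc (h₁ : ℝ) * (s.natAbs : ℝ) ≤ (2 * c) * (c : ℝ) ^ 4 :=
          mul_le_mul hhR hsR (by positivity) (by positivity)
      _ = 2 * (c : ℝ) ^ 5 := by ring
  -- the maximum
  have hsumR : (x : ℝ) ^ 2 + (y : ℝ) ^ 2 = 2 * (Q : ℝ) ^ 4 := by exact_mod_cast hsum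
  set M : ℝ := max (|(x : ℝ)| ^ 4) (|(y : ℝ)| ^ 4) with hM
  have hMl : (Q : ℝ) ^ 8 ≤ M := by
    rcases le_total ((Q : ℝ) ^ 4) ((x : ℝ) ^ 2) with h | h
    · refine le_trans ?_ (le_max_left _ _)
      have h1 : ((Q : ℝ) ^ 4) ^ 2 ≤ ((x : ℝ) ^ 2) ^ 2 := pow_le_pow_left₀ (by positivity) h 2
      calc (Q : ℝ) ^ 8 = ((Q : ℝ) ^ 4) ^ 2 := by ring
        _ ≤ ((x : ℝ) ^ 2) ^ 2 := h1
        _ = |(x : ℝ)| ^ 4 := by rw [← sq_abs (x : ℝ)]; ring
    · refine le_trans ?_ (le_max_right _ _)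
      have h0' : (Q : ℝ) ^ 4 ≤ (y : ℝ) ^ 2 := by linarith
      have h1 : ((Q : ℝ) ^ 4) ^ 2 ≤ ((y : ℝ) ^ 2) ^ 2 := pow_le_pow_left₀ (by positivity) h0' 2
      calc (Q : ℝ) ^ 8 = ((Q : ℝ) ^ 4) ^ 2 := by ring
        _ ≤ ((y : ℝ) ^ 2) ^ 2 := h1
        _ = |(y : ℝ)| ^ 4 := by rw [← sq_abs (y : ℝ)]; ring
  have hMu : M ≤ 4 * (c : ℝ) ^ 16 := by
    have h1 : (Q : ℝ) ^ 8 ≤ (c : ℝ) ^ 16 := by
      calc (Q : ℝ) ^ 8 ≤ ((c : ℝ) ^ 2) ^ 8 := pow_le_pow_left₀ hQR.le hQ2R 8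
        _ = (c : ℝ) ^ 16 := by ring
    have h2 : ∀ z : ℝ, z ^ 2 ≤ 2 * (Q : ℝ) ^ 4 → |z| ^ 4 ≤ 4 * (c : ℝ) ^ 16 := by
      intro z hz
      calc |z| ^ 4 = (z ^ 2) ^ 2 := by rw [← sq_abs z]; ring
        _ ≤ (2 * (Q : ℝ) ^ 4) ^ 2 := pow_le_pow_left₀ (sq_nonneg z) hz 2
        _ = 4 * (Q : ℝ) ^ 8 := by ring
        _ ≤ _ := by linarith
    exact max_le (h2 x (by nlinarith [sq_nonneg (y : ℝ)])) (h2 y (by nlinarith [sq_nonneg (x : ℝ)]))
  refine ⟨x, y, hxy, hne, ?_, ?_, ?_⟩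
  · have h1 : (N : ℤ) ∣ a * b * c := (Dvd.intro_left _ rfl).trans hNZ
    have h2 : (N : ℤ) ∣ ((a * b * c * h₁ : ℕ) : ℤ) := by push_cast; exact h1.mul_right _
    rw [← hprod] at h2
    have h3 : (N : ℤ) ∣ U * V := Int.dvd_natAbs.1 h2
    rw [hF]
    exact ((h3.mul_left _).mul_right _).mul_right _
  · apply finish (g := 2 * H * Q) (P_pos ha hb hc).le hne (by positivity) (by positivity)
    · intro ℓ hℓ hd
      rw [hFn] at hd
      have h1 : ℓ ∣ (a * b * c * (2 * H * Q)) ^ 4 := by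
        refine hd.trans ⟨(a * b * c) ^ 3 * H ^ 3, ?_⟩
        rw [hH]; ring
      exact hℓ.dvd_of_dvd_pow h1
    · have hA0 : (0 : ℝ) < ((a * b * c : ℕ) : ℝ) := by push_cast; positivity
      have hn := num (e := 1 / 2) (c := (c : ℝ)) (A := ((a * b * c : ℕ) : ℝ) * H)
        (F := |(x : ℝ) ^ 4 - (y : ℝ) ^ 4|) (M := M) (κ₁ := 1 / 16)
        (κ₂ := 1 / 65536) (s := 8) (d := 16) (t := 8 - 8 * l) h0 (by linarith) (by linarith)
        (by norm_num) hc1 (by positivity) (by norm_num) (by norm_num) (by norm_num) (by norm_num) (by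
          have h2 : (c : ℝ) ^ (8 : ℝ) = (c : ℝ) ^ (8 : ℕ) := by
            rw [← Real.rpow_natCast]; norm_num
          rw [h2, hFR]
          have h3 : ((c : ℝ) ^ 2) ^ 4 ≤ (4 * (Q : ℝ)) ^ 4 := pow_le_pow_left₀ (by positivity) hQ1R 4
          have h4 : (c : ℝ) ^ 8 ≤ 256 * (Q : ℝ) ^ 4 := by
            calc (c : ℝ) ^ 8 = ((c : ℝ) ^ 2) ^ 4 := by ring
              _ ≤ (4 * (Q : ℝ)) ^ 4 := h3
              _ = _ := by ring
          have h5 : ((a * b * c : ℕ) : ℝ) * H * (c : ℝ) ^ 8 ≤ ((a * b * c : ℕ) : ℝ) * H * (256 * (Q : ℝ) ^ 4) :=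
            mul_le_mul_of_nonneg_left h4 (by positivity)
          linarith) (by
          have h2 : (c : ℝ) ^ (16 : ℝ) = (c : ℝ) ^ (16 : ℕ) := by
            rw [← Real.rpow_natCast]; norm_num
          rw [h2]
          refine le_trans ?_ hMl
          have h3 : ((c : ℝ) ^ 2) ^ 8 ≤ (4 * (Q : ℝ)) ^ 8 := pow_le_pow_left₀ (by positivity) hQ1R 8
          have h4 : (c : ℝ) ^ 16 ≤ 65536 * (Q : ℝ) ^ 8 := by
            calc (c : ℝ) ^ 16 = ((c : ℝ) ^ 2) ^ 8 := by ring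
              _ ≤ (4 * (Q : ℝ)) ^ 8 := h3
              _ = _ := by ring
          linarith) (by ring)
      have e1 : (1 : ℝ) - 1 / ((4 : ℕ) : ℝ) - 1 / ((4 : ℕ) : ℝ) - l = 1 / 2 - l := by push_cast; ring
      rw [e1]
      unfold P
      have hHl : (H : ℝ) ≤ (H : ℝ) ^ l * (2 * (c : ℝ) ^ (5 - 5 * l)) := by
        have h2 : (H : ℝ) = (H : ℝ) ^ l * (H : ℝ) ^ (1 - l) := by
          rw [← Real.rpow_add hHR0, add_sub_cancel, Real.rpow_one]
        nth_rewrite 1 [h2]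
        apply mul_le_mul_of_nonneg_left _ (by positivity)
        calc (H : ℝ) ^ (1 - l) ≤ (2 * (c : ℝ) ^ 5) ^ (1 - l) :=
              Real.rpow_le_rpow hHR0.le hHR (by linarith)
          _ = 2 ^ (1 - l) * (c : ℝ) ^ (5 - 5 * l) := by
              rw [Real.mul_rpow (by norm_num) (by positivity), ← Real.rpow_natCast (c : ℝ) 5,
                ← Real.rpow_mul hcR.le]
              congr 2; push_cast; ring
          _ ≤ 2 ^ (1 : ℝ) * (c : ℝ) ^ (5 - 5 * l) :=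
              mul_le_mul_of_nonneg_right
                (Real.rpow_le_rpow_of_exponent_le (by norm_num) (by linarith)) (by positivity)
          _ = _ := by rw [Real.rpow_one]
      have e7 : (c : ℝ) ^ (8 - 8 * l) = (c : ℝ) ^ (5 - 5 * l) * (c : ℝ) ^ 2 * (c : ℝ) ^ (1 - 3 * l) := by
        rw [← Real.rpow_natCast (c : ℝ) 2, ← Real.rpow_add hcR, ← Real.rpow_add hcR]
        congr 1; push_cast; ring
      rw [Real.mul_rpow hA0.le hHR0.le, e7] at hn
      set A := ((a * b * c : ℕ) : ℝ) ^ l with hA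
      have hA0' : 0 < A := by positivity
      have hc3 : 0 < (c : ℝ) ^ (1 - 3 * l) := by positivity
      calc ((2 * H * Q : ℕ) : ℝ) * (A * (c : ℝ) ^ (1 - 3 * l))
          = 2 * H * Q * (A * (c : ℝ) ^ (1 - 3 * l)) := by push_cast; ring
        _ ≤ 2 * ((H : ℝ) ^ l * (2 * (c : ℝ) ^ (5 - 5 * l))) * (c : ℝ) ^ 2 *
              (A * (c : ℝ) ^ (1 - 3 * l)) := by
            apply mul_le_mul_of_nonneg_right _ (by positivity)
            exact mul_le_mul (mul_le_mul_of_nonneg_left hHl (by norm_num)) hQ2R hQR.le (by positivity)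
        _ = 4 * 16 * 65536 * (1 / 16 * (1 / 65536) * (A * (H : ℝ) ^ l *
              ((c : ℝ) ^ (5 - 5 * l) * (c : ℝ) ^ 2 * (c : ℝ) ^ (1 - 3 * l)))) := by ring
        _ ≤ _ := mul_le_mul_of_nonneg_left hn (by norm_num)
  · have := pow_pos hcR 16
    linarith

end Pool.Agent.N757.SC
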