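import Mathlib
import Pool.Agent.N757.SC.Cases

/-!
# Szpiro's inequality and the radical of `x ^ p - y ^ q`: the map for (6,2)
-/

set_option autoImplicit false

namespace Pool.Agent.N757.SC

open Finset Pool.Agent.N757.SZ

/-- the pair `u, v` -/
theorem pair62 {a b c N : ℕ} (ha : 0 < a) (hb : 0 < b) (hab : a.Coprime b) (habc : a + b = c)
    (hdvd : 864 * N ∣ a * b * c) : ∃ u v Y : ℤ, ∃ τ : ℕ, 0 < τ ∧ τ ∣ 6 ∧ IsCoprime u v ∧ Odd (u + v) ∧
      Y ^ 3 = u + v ∧ (τ : ℤ) ^ 3 * u = -(27 * (a * b ^ 2)) ∧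
      (τ : ℤ) ^ 3 * v = c ^ 2 * (8 * b - a) := by
  obtain ⟨hcab, cab, cac, cbc⟩ := triple hab habc
  have hNZ : (864 * N : ℤ) ∣ a * b * c := by exact_mod_cast hdvd
  have h32abc : (32 : ℤ) ∣ a * b * c := Dvd.dvd.trans (⟨27 * N, by ring⟩ : (32 : ℤ) ∣ 864 * N) hNZ
  have h27abc : (27 : ℤ) ∣ a * b * c := Dvd.dvd.trans (⟨32 * N, by ring⟩ : (27 : ℤ) ∣ 864 * N) hNZ
  have h8 : IsCoprime (b : ℤ) (8 * b - a) := by
    have := cab.symm.neg_right.add_mul_left_right 8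
    rwa [show -(a : ℤ) + b * 8 = 8 * b - a by ring] at this
  by_cases h3 : (3 : ℤ) ∣ c
  · -- `27 ∣ c`
    have h3a : IsCoprime (3 : ℤ) (a : ℤ) := (cac.of_isCoprime_of_dvd_right h3).symm
    have h3b : IsCoprime (3 : ℤ) (b : ℤ) := (cbc.of_isCoprime_of_dvd_right h3).symm
    obtain ⟨c₁, hc₁⟩ := h3
    have hac₁ : IsCoprime (a : ℤ) c₁ := cac.of_isCoprime_of_dvd_right ⟨3, by rw [hc₁]; ring⟩
    have hbc₁ : IsCoprime (b : ℤ) c₁ := cbc.of_isCoprime_of_dvd_right ⟨3, by rw [hc₁]; ring⟩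
    rcases Int.even_or_odd (a : ℤ) with hev | hodd
    · have h2b : IsCoprime (2 : ℤ) (b : ℤ) := (cab.symm.of_isCoprime_of_dvd_right hev.two_dvd).symm
      have h2c : IsCoprime (2 : ℤ) (c : ℤ) := (cac.symm.of_isCoprime_of_dvd_right hev.two_dvd).symm
      have h32a : (32 : ℤ) ∣ a := by
        have h2 : IsCoprime (32 : ℤ) (b * c) := by
          have : IsCoprime (2 ^ 5 : ℤ) (b * c) := (h2b.mul_right h2c).pow_left
          norm_num at this
          exact this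
        apply h2.dvd_of_dvd_mul_right
        rwa [← mul_assoc]
      obtain ⟨a₂, ha₂⟩ := h32a
      set a₁ : ℤ := 4 * a₂ with ha₁
      have haa : (a : ℤ) = 8 * a₁ := by rw [ha₁, ha₂]; ring
      have hba : IsCoprime (b : ℤ) a₁ := cab.symm.of_isCoprime_of_dvd_right ⟨8, by rw [haa]; ring⟩
      have ha₁c : IsCoprime a₁ c₁ := hac₁.of_isCoprime_of_dvd_left ⟨8, by rw [haa]; ring⟩
      have hc₁o : Odd c₁ := by
        have h1 : Odd (c : ℤ) := Int.isCoprime_two_left.1 h2c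
        rw [hc₁] at h1
        exact Int.odd_mul.1 h1 |>.2
      have hb' : (b : ℤ) = 3 * c₁ - 8 * a₁ := by linarith
      refine ⟨-(a₁ * b ^ 2), c₁ ^ 2 * (c₁ - 3 * a₁), c₁ - 4 * a₁, 6, by norm_num, dvd_rfl, ?_, ?_, ?_, ?_, ?_⟩
      · have k1 : IsCoprime a₁ (c₁ - 3 * a₁) := by
          have := ha₁c.add_mul_left_right (-3)
          rwa [show c₁ + a₁ * -3 = c₁ - 3 * a₁ by ring] at this
        have k2 : IsCoprime (b : ℤ) (c₁ - 3 * a₁) := by
          have := hba.neg_right.add_mul_left_right 1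
          rw [show -a₁ + (b : ℤ) * 1 = 3 * (c₁ - 3 * a₁) by rw [hb']; ring] at this
          exact this.of_isCoprime_of_dvd_right (Dvd.intro_left _ rfl)
        exact ((ha₁c.pow_right.mul_right k1).mul_left
          ((hbc₁.pow_right.mul_right k2).pow_left)).neg_left
      · have k1 : Even a₁ := ⟨2 * a₂, by rw [ha₁]; ring⟩
        have k2 : Even (-(a₁ * (b : ℤ) ^ 2)) := (k1.mul_right _).neg
        have k3 : Odd (c₁ ^ 2 * (c₁ - 3 * a₁)) := hc₁o.pow.mul (hc₁o.sub_even (k1.mul_left _))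
        exact k2.add_odd k3
      · rw [hb']; ring
      · rw [haa]; push_cast; ring
      · rw [hc₁, haa, hb']; push_cast; ring
    · refine ⟨-(a * b ^ 2), c₁ ^ 2 * (3 * b - c₁), b - c₁, 3, by norm_num, by norm_num, ?_, ?_, ?_, ?_, ?_⟩
      · have k1 : IsCoprime (a : ℤ) (3 * b - c₁) := by
          have h2a : IsCoprime (a : ℤ) 2 := Int.isCoprime_two_right.2 hodd
          have h3 : IsCoprime (a : ℤ) (2 ^ 3 * b) := h2a.pow_right.mul_right cab
          have := h3.add_mul_left_right (-1)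
          rw [show 2 ^ 3 * (b : ℤ) + a * -1 = 3 * (3 * b - c₁) by
            have : (a : ℤ) = 3 * c₁ - b := by linarith
            rw [this]; ring] at this
          exact this.of_isCoprime_of_dvd_right (Dvd.intro_left _ rfl)
        have k2 : IsCoprime (b : ℤ) (3 * b - c₁) := by
          have := hbc₁.neg_right.add_mul_left_right 3
          rwa [show -c₁ + (b : ℤ) * 3 = 3 * b - c₁ by ring] at this
        exact ((hac₁.pow_right.mul_right k1).mul_left
          ((hbc₁.pow_right.mul_right k2).pow_left)).neg_left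
      · rcases Int.even_or_odd (b : ℤ) with hbe | hbo
        · have k1 : Odd (c : ℤ) := by rw [hcab]; exact hodd.add_even hbe
          rw [hc₁] at k1
          have k2 : Odd c₁ := Int.odd_mul.1 k1 |>.2
          have k3 : Even (-((a : ℤ) * (b : ℤ) ^ 2)) :=
            ((hbe.pow_of_ne_zero (by norm_num)).mul_left _).neg
          have k4 : Odd (c₁ ^ 2 * (3 * b - c₁)) := k2.pow.mul ((hbe.mul_left _).sub_odd k2)
          exact k3.add_odd k4
        · have k1 : Even (c : ℤ) := by rw [hcab]; exact hodd.add_odd hbo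
          rw [hc₁] at k1
          have k2 : Even c₁ := by
            rcases Int.even_mul.1 k1 with h | h
            · exact absurd h (by decide)
            · exact h
          have k3 : Odd (-((a : ℤ) * (b : ℤ) ^ 2)) := (hodd.mul hbo.pow).neg
          have k4 : Even (c₁ ^ 2 * (3 * b - c₁)) := (k2.pow_of_ne_zero (by norm_num)).mul_right _
          exact k3.add_even k4
      · have : (a : ℤ) = 3 * c₁ - b := by linarith
        rw [this]; ring
      · push_cast; ring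
      · have : (a : ℤ) = 3 * c₁ - b := by linarith
        rw [hc₁, this]; push_cast; ring
  · have h3c : IsCoprime (3 : ℤ) (c : ℤ) := (Int.prime_three.coprime_iff_not_dvd).2 h3
    rcases Int.even_or_odd (a : ℤ) with hev | hodd
    · have h2b : IsCoprime (2 : ℤ) (b : ℤ) := (cab.symm.of_isCoprime_of_dvd_right hev.two_dvd).symm
      have h2c : IsCoprime (2 : ℤ) (c : ℤ) := (cac.symm.of_isCoprime_of_dvd_right hev.two_dvd).symm
      have h32a : (32 : ℤ) ∣ a := by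
        have h2 : IsCoprime (32 : ℤ) (b * c) := by
          have : IsCoprime (2 ^ 5 : ℤ) (b * c) := (h2b.mul_right h2c).pow_left
          norm_num at this
          exact this
        apply h2.dvd_of_dvd_mul_right
        rwa [← mul_assoc]
      obtain ⟨a₂, ha₂⟩ := h32a
      set a₁ : ℤ := 4 * a₂ with ha₁
      have haa : (a : ℤ) = 8 * a₁ := by rw [ha₁, ha₂]; ring
      have hba : IsCoprime (b : ℤ) a₁ := cab.symm.of_isCoprime_of_dvd_right ⟨8, by rw [haa]; ring⟩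
      have ha₁c : IsCoprime a₁ (c : ℤ) := cac.of_isCoprime_of_dvd_left ⟨8, by rw [haa]; ring⟩
      have hco : Odd (c : ℤ) := Int.isCoprime_two_left.1 h2c
      have hbo : Odd (b : ℤ) := Int.isCoprime_two_left.1 h2b
      refine ⟨-(27 * (a₁ * b ^ 2)), c ^ 2 * (b - a₁), b - 4 * a₁, 2, by norm_num, by norm_num, ?_, ?_,
        ?_, ?_, ?_⟩
      · have k1 : IsCoprime a₁ (b - a₁ : ℤ) := by
          have := hba.symm.add_mul_left_right (-1)
          rwa [show (b : ℤ) + a₁ * -1 = b - a₁ by ring] at this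
        have k2 : IsCoprime (b : ℤ) (b - a₁) := by
          have := hba.neg_right.add_mul_left_right 1
          rwa [show -a₁ + (b : ℤ) * 1 = b - a₁ by ring] at this
        have k3 : IsCoprime (3 : ℤ) (b - a₁) := by
          have := h3c.add_mul_left_right (-3 * a₁)
          rwa [show (c : ℤ) + 3 * (-3 * a₁) = b - a₁ by rw [hcab, haa]; ring] at this
        have k4 : IsCoprime (3 ^ 3 * (a₁ * b ^ 2) : ℤ) (c ^ 2 * (b - a₁)) :=
          ((h3c.pow_right.mul_right k3).pow_left).mul_left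
            ((ha₁c.pow_right.mul_right k1).mul_left ((cbc.pow_right.mul_right k2).pow_left))
        norm_num at k4
        exact k4.neg_left
      · have k1 : Even a₁ := ⟨2 * a₂, by rw [ha₁]; ring⟩
        have k2 : Even (-(27 * (a₁ * (b : ℤ) ^ 2))) := ((k1.mul_right _).mul_left _).neg
        have k3 : Odd ((c : ℤ) ^ 2 * (b - a₁)) := hco.pow.mul (hbo.sub_even k1)
        exact k2.add_odd k3
      · rw [hcab, haa]; ring
      · rw [haa]; push_cast; ring
      · rw [haa]; push_cast; ring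
    · refine ⟨-(27 * (a * b ^ 2)), c ^ 2 * (8 * b - a), 2 * b - a, 1, by norm_num, by norm_num, ?_, ?_,
        ?_, ?_, ?_⟩
      · have h2a : IsCoprime (a : ℤ) 2 := Int.isCoprime_two_right.2 hodd
        have k1 : IsCoprime (a : ℤ) (8 * b - a) := by
          have h3 : IsCoprime (a : ℤ) (2 ^ 3 * b) := h2a.pow_right.mul_right cab
          have := h3.add_mul_left_right (-1)
          rwa [show 2 ^ 3 * (b : ℤ) + a * -1 = 8 * b - a by ring] at this
        have k3 : IsCoprime (3 : ℤ) (8 * b - a) := by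
          have := h3c.neg_right.add_mul_left_right (3 * b)
          rwa [show -(c : ℤ) + 3 * (3 * b) = 8 * b - a by rw [hcab]; ring] at this
        have k4 : IsCoprime (3 ^ 3 * (a * b ^ 2) : ℤ) (c ^ 2 * (8 * b - a)) :=
          ((h3c.pow_right.mul_right k3).pow_left).mul_left
            ((cac.pow_right.mul_right k1).mul_left ((cbc.pow_right.mul_right h8).pow_left))
        norm_num at k4
        exact k4.neg_left
      · rcases Int.even_or_odd (b : ℤ) with hbe | hbo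
        · have k1 : Odd (c : ℤ) := by rw [hcab]; exact hodd.add_even hbe
          have k3 : Even (-(27 * ((a : ℤ) * (b : ℤ) ^ 2))) :=
            (((hbe.pow_of_ne_zero (by norm_num)).mul_left _).mul_left _).neg
          have k4 : Odd ((c : ℤ) ^ 2 * (8 * b - a)) := k1.pow.mul ((hbe.mul_left _).sub_odd hodd)
          exact k3.add_odd k4
        · have k1 : Even (c : ℤ) := by rw [hcab]; exact hodd.add_odd hbo
          have k27 : Odd (27 : ℤ) := by decide
          have k3 : Odd (-(27 * ((a : ℤ) * (b : ℤ) ^ 2))) := (k27.mul (hodd.mul hbo.pow)).neg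
          have k4 : Even ((c : ℤ) ^ 2 * (8 * b - a)) := (k1.pow_of_ne_zero (by norm_num)).mul_right _
          exact k3.add_even k4
      · rw [hcab]; ring
      · push_cast; ring
      · push_cast; ring

theorem map62 {l : ℝ} (h0 : 0 ≤ l) (h6 : l ≤ 1 / 6) (N : ℕ) (hN : 1 ≤ N) : Map l 6 2 N := by
  refine ⟨864 * N, by omega, fun K₀ hK₀ => ⟨48 * (432 * K₀) * (2916 * K₀ ^ 6), 6, ?_, by norm_num, ?_⟩⟩
  · have : 1 ≤ K₀ ^ 6 := one_le_pow₀ hK₀
    nlinarith
  intro a b c ha hb hab habc hdvd hcb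
  obtain ⟨u, v, Y, τ, hτ0, hτd, huv, hodd, hY, hu, hv⟩ := pair62 ha hb hab habc hdvd
  have hτ6 : τ ≤ 6 := Nat.le_of_dvd (by norm_num) hτd
  obtain ⟨hcab, cab, cac, cbc⟩ := triple hab habc
  have hc : 0 < c := by omega
  have haR : (0 : ℝ) < a := by exact_mod_cast ha
  have hbR : (0 : ℝ) < b := by exact_mod_cast hb
  have hcR : (0 : ℝ) < c := by exact_mod_cast hc
  have hc1 : (1 : ℝ) ≤ c := by exact_mod_cast hc
  have hsumR : (c : ℝ) = a + b := by exact_mod_cast hcab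
  have hK0 : 0 < K₀ := by linarith
  have hNZ : (864 * N : ℤ) ∣ a * b * c := by exact_mod_cast hdvd
  have h8b : (8 * b - a : ℤ) ≠ 0 := by
    intro h
    have h1 : a = 8 * b := by omega
    have h2 : b = 1 := by
      rw [h1] at hab
      exact Nat.Coprime.eq_one_of_dvd hab.symm (Dvd.intro_left _ rfl)
    rw [← habc, h1, h2] at hdvd
    have h3 : 864 ∣ 8 * 1 * 1 * (8 * 1 + 1) := (Dvd.intro _ rfl).trans hdvd
    omega
  set G : ℕ := (8 * b - a : ℤ).natAbs with hG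
  have hG0 : 0 < G := Int.natAbs_pos.2 h8b
  have hGR0 : (0 : ℝ) < G := by exact_mod_cast hG0
  have hGR : (G : ℝ) = |8 * (b : ℝ) - a| := by
    rw [hG, Nat.cast_natAbs, Int.cast_abs]; push_cast; rfl
  have hG8 : (G : ℝ) ≤ 8 * c := by
    rw [hGR, abs_le]; constructor <;> linarith
  have hτR0 : (0 : ℝ) < τ := by exact_mod_cast hτ0
  have hτR6 : (τ : ℝ) ≤ 6 := by exact_mod_cast hτ6
  have hτ3 : (τ : ℝ) ^ 3 ≤ 216 := by
    calc (τ : ℝ) ^ 3 ≤ 6 ^ 3 := pow_le_pow_left₀ hτR0.le hτR6 3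
      _ = 216 := by norm_num
  have hτ1 : (1 : ℝ) ≤ (τ : ℝ) ^ 3 := one_le_pow₀ (by exact_mod_cast hτ0)
  have huR : (τ : ℝ) ^ 3 * u = -(27 * (a * b ^ 2)) := by exact_mod_cast hu
  have hvR : (τ : ℝ) ^ 3 * v = c ^ 2 * (8 * b - a) := by exact_mod_cast hv
  have hau : (τ : ℝ) ^ 3 * |(u : ℝ)| = 27 * (a * b ^ 2) := by
    rw [← abs_of_pos (by positivity : (0 : ℝ) < (τ : ℝ) ^ 3), ← abs_mul, huR, abs_neg,
      abs_of_pos (by positivity)]
  have hav : (τ : ℝ) ^ 3 * |(v : ℝ)| = c ^ 2 * G := by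
    rw [← abs_of_pos (by positivity : (0 : ℝ) < (τ : ℝ) ^ 3), ← abs_mul, hvR, abs_mul, hGR,
      abs_of_pos (by positivity : (0 : ℝ) < (c : ℝ) ^ 2)]
  set X : ℤ := u - v with hX
  have hF : Y ^ 6 - X ^ 2 = 4 * (u * v) := by
    have : Y ^ 6 = (Y ^ 3) ^ 2 := by ring
    rw [this, hY, hX]; ring
  have hYX : IsCoprime Y X := by
    have h1 : IsCoprime (u + v) u := by
      have := huv.symm.add_mul_right_left 1
      rwa [one_mul, add_comm] at this
    have h2 : IsCoprime (u + v) 2 := Int.isCoprime_two_right.2 hodd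
    have h3 := (h2.mul_right h1).add_mul_left_right (-1)
    rw [show 2 * u + (u + v) * -1 = X by rw [hX]; ring, ← hY] at h3
    exact h3.of_isCoprime_of_dvd_left (dvd_pow_self Y (by norm_num))
  have hFa : |(Y : ℝ) ^ 6 - (X : ℝ) ^ 2| = 4 * (|(u : ℝ)| * |(v : ℝ)|) := by
    have h1 : (Y : ℝ) ^ 6 - (X : ℝ) ^ 2 = 4 * (u * v) := by exact_mod_cast hF
    rw [h1, abs_mul, abs_mul, abs_of_pos (by norm_num : (0 : ℝ) < 4)]
  have hu0 : 0 < |(u : ℝ)| := by
    have : 0 < (τ : ℝ) ^ 3 * |(u : ℝ)| := by rw [hau]; positivity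
    exact (pos_iff_pos_of_mul_pos this).1 (by positivity)
  have hv0 : 0 < |(v : ℝ)| := by
    have : 0 < (τ : ℝ) ^ 3 * |(v : ℝ)| := by rw [hav]; positivity
    exact (pos_iff_pos_of_mul_pos this).1 (by positivity)
  have hFpos : 0 < |(Y : ℝ) ^ 6 - (X : ℝ) ^ 2| := by rw [hFa]; positivity
  have hne : Y ^ 6 ≠ X ^ 2 := by
    intro h
    have : (Y : ℝ) ^ 6 - (X : ℝ) ^ 2 = 0 := by rw [sub_eq_zero]; exact_mod_cast h
    rw [this, abs_zero] at hFpos
    exact lt_irrefl _ hFpos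
  -- `τ ^ 6 F`
  have hτF : (τ : ℤ) ^ 6 * (Y ^ 6 - X ^ 2) = -(108 * (a * b * c * (8 * b - a)) * (b * c)) := by
    rw [hF]
    have : (τ : ℤ) ^ 6 * (4 * (u * v)) = 4 * (((τ : ℤ) ^ 3 * u) * ((τ : ℤ) ^ 3 * v)) := by ring
    rw [this, hu, hv]; ring
  -- the maximum
  set M : ℝ := max (|(Y : ℝ)| ^ 6) (|(X : ℝ)| ^ 2) with hM
  have hY6 : |(Y : ℝ)| ^ 6 = ((u : ℝ) + v) ^ 2 := by
    have h1 : (Y : ℝ) ^ 3 = u + v := by exact_mod_cast hY
    calc |(Y : ℝ)| ^ 6 = (|(Y : ℝ)| ^ 3) ^ 2 := by ring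
      _ = (|(Y : ℝ) ^ 3|) ^ 2 := by rw [abs_pow]
      _ = _ := by rw [h1, sq_abs]
  have hX2 : |(X : ℝ)| ^ 2 = ((u : ℝ) - v) ^ 2 := by
    rw [sq_abs, hX]; push_cast; ring
  have hMeq : M = (|(u : ℝ)| + |(v : ℝ)|) ^ 2 := by
    have e1 : (|(u : ℝ)| + |(v : ℝ)|) ^ 2 = (u : ℝ) ^ 2 + (v : ℝ) ^ 2 + 2 * |(u : ℝ) * v| := by
      rw [abs_mul, ← sq_abs (u : ℝ), ← sq_abs (v : ℝ)]; ring
    rw [hM, hY6, hX2, e1]
    rcases le_total 0 ((u : ℝ) * v) with h | h
    · rw [abs_of_nonneg h, max_eq_left (by nlinarith)]; ring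
    · rw [abs_of_nonpos h, max_eq_right (by nlinarith)]; ring
  have hcb' : (c : ℝ) / K₀ ≤ b := by rw [div_le_iff₀ hK0]; linarith
  have hMl : 1 / (2916 * K₀ ^ 6) * (c : ℝ) ^ (6 : ℝ) ≤ M := by
    have h2 : (c : ℝ) ^ (6 : ℝ) = (c : ℝ) ^ (6 : ℕ) := by rw [← Real.rpow_natCast]; norm_num
    rw [h2, hMeq]
    have key : (c : ℝ) ^ 3 / (54 * K₀ ^ 3) ≤ |(u : ℝ)| + |(v : ℝ)| := by
      have h3 : (c : ℝ) ^ 3 / (54 * K₀ ^ 3) * (τ : ℝ) ^ 3 ≤ (|(u : ℝ)| + |(v : ℝ)|) * (τ : ℝ) ^ 3 := by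
        have e1 : (|(u : ℝ)| + |(v : ℝ)|) * (τ : ℝ) ^ 3 = 27 * (a * b ^ 2) + c ^ 2 * G := by
          rw [← hau, ← hav]; ring
        rw [e1]
        have h4 : (c : ℝ) ^ 3 / (54 * K₀ ^ 3) * (τ : ℝ) ^ 3 ≤ 4 * (c / K₀) ^ 3 := by
          calc (c : ℝ) ^ 3 / (54 * K₀ ^ 3) * (τ : ℝ) ^ 3 ≤ (c : ℝ) ^ 3 / (54 * K₀ ^ 3) * 216 :=
                mul_le_mul_of_nonneg_left hτ3 (by positivity)
            _ = 4 * (c / K₀) ^ 3 := by field_simp; norm_num
        have hz0 : 0 < (c : ℝ) / K₀ := by positivity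
        have hzc : (c : ℝ) / K₀ ≤ c := div_le_self hcR.le hK₀
        set z : ℝ := (c : ℝ) / K₀ with hz
        have h5 : 8 * z ≤ a + G := by
          have : 8 * (b : ℝ) - a ≤ G := by rw [hGR]; exact le_abs_self _
          linarith
        have h6' : z ^ 2 ≤ (b : ℝ) ^ 2 := pow_le_pow_left₀ hz0.le hcb' 2
        have h7 : z ^ 2 ≤ (c : ℝ) ^ 2 := pow_le_pow_left₀ hz0.le hzc 2
        have h8 : (a : ℝ) * z ^ 2 ≤ a * b ^ 2 := mul_le_mul_of_nonneg_left h6' haR.le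
        have h9 : (G : ℝ) * z ^ 2 ≤ c ^ 2 * G := by
          rw [mul_comm ((c : ℝ) ^ 2)]; exact mul_le_mul_of_nonneg_left h7 hGR0.le
        have h10 : 8 * z * z ^ 2 ≤ (a + G) * z ^ 2 := mul_le_mul_of_nonneg_right h5 (by positivity)
        have h11 : (0 : ℝ) < a * b ^ 2 := by positivity
        have h12 : 0 < z ^ 3 := by positivity
        refine h4.trans ?_
        nlinarith
      exact le_of_mul_le_mul_right h3 (by positivity)
    have h4 : ((c : ℝ) ^ 3 / (54 * K₀ ^ 3)) ^ 2 ≤ (|(u : ℝ)| + |(v : ℝ)|) ^ 2 :=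
      pow_le_pow_left₀ (by positivity) key 2
    refine le_trans (le_of_eq ?_) h4
    field_simp
    ring
  have hMu : M ≤ 1225 * (c : ℝ) ^ 6 := by
    rw [hMeq]
    have h1 : |(u : ℝ)| ≤ 27 * (c : ℝ) ^ 3 := by
      have h2 : |(u : ℝ)| ≤ (τ : ℝ) ^ 3 * |(u : ℝ)| := le_mul_of_one_le_left hu0.le hτ1
      rw [hau] at h2
      have h3 : (a : ℝ) * b ^ 2 ≤ (c : ℝ) ^ 3 := by
        calc (a : ℝ) * b ^ 2 ≤ c * (c : ℝ) ^ 2 :=
              mul_le_mul (by linarith) (pow_le_pow_left₀ hbR.le (by linarith) 2) (by positivity) hcR.le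
          _ = (c : ℝ) ^ 3 := by ring
      linarith
    have h2 : |(v : ℝ)| ≤ 8 * (c : ℝ) ^ 3 := by
      have h2 : |(v : ℝ)| ≤ (τ : ℝ) ^ 3 * |(v : ℝ)| := le_mul_of_one_le_left hv0.le hτ1
      rw [hav] at h2
      have h3 : (c : ℝ) ^ 2 * G ≤ (c : ℝ) ^ 2 * (8 * c) := mul_le_mul_of_nonneg_left hG8 (by positivity)
      linarith [show (c : ℝ) ^ 2 * (8 * c) = 8 * (c : ℝ) ^ 3 by ring]
    calc (|(u : ℝ)| + |(v : ℝ)|) ^ 2 ≤ (35 * (c : ℝ) ^ 3) ^ 2 :=
          pow_le_pow_left₀ (by positivity) (by linarith) 2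
      _ = 1225 * (c : ℝ) ^ 6 := by ring
  refine ⟨Y, X, hYX, hne, ?_, ?_, ?_⟩
  · -- `N ∣ F`
    obtain ⟨k, hk⟩ := hNZ
    obtain ⟨m, hm⟩ := hτd
    have hm' : (6 : ℤ) = τ * m := by exact_mod_cast hm
    have h6' : (46656 : ℤ) = τ ^ 6 * m ^ 6 := by
      rw [← mul_pow, ← hm']; norm_num
    have hτZ : (τ : ℤ) ^ 6 ≠ 0 := pow_ne_zero _ (by omega)
    refine ⟨-(2 * m ^ 6 * k * (8 * b - a) * (b * c)), ?_⟩
    apply mul_left_cancel₀ hτZ
    rw [hτF, hk]
    have h7 : (τ : ℤ) ^ 6 * (N * -(2 * m ^ 6 * k * (8 * b - a) * (b * c))) =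
      -(2 * (τ ^ 6 * m ^ 6) * (N * k * (8 * b - a)) * (b * c)) := by ring
    rw [h7, ← h6']; ring
  · apply finish (g := 6 * G) (P_pos ha hb hc).le hne (by positivity) (by positivity)
    · intro ℓ hℓ hd
      have h1 : (ℓ : ℤ) ∣ Y ^ 6 - X ^ 2 := Int.natCast_dvd.2 hd
      have h2 : (ℓ : ℤ) ∣ 108 * (a * b * c * (8 * b - a)) * (b * c) := by
        have h3 := h1.mul_left ((τ : ℤ) ^ 6)
        rw [hτF] at h3
        exact (dvd_neg.1 h3)
      have h3 : (ℓ : ℤ) ∣ (a * b * c * (6 * (8 * b - a))) ^ 3 := by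
        refine h2.trans ⟨2 * (a * b * c * a) * (8 * b - a) ^ 2, ?_⟩
        ring
      have h4 : (ℓ : ℤ) ∣ a * b * c * (6 * (8 * b - a)) :=
        (Nat.prime_iff_prime_int.1 hℓ).dvd_of_dvd_pow h3
      have h5 : ℓ ∣ ((a * b * c * (6 * (8 * b - a)) : ℤ)).natAbs := Int.natCast_dvd.1 h4
      rw [Int.natAbs_mul, Int.natAbs_mul, Int.natAbs_mul, Int.natAbs_mul, Int.natAbs_natCast,
        Int.natAbs_natCast, Int.natAbs_natCast] at h5
      exact h5
    · have hA0 : (0 : ℝ) < ((a * b * c : ℕ) : ℝ) := by push_cast; positivity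
      have hn := num (e := 1 / 3) (c := (c : ℝ)) (A := ((a * b * c : ℕ) : ℝ) * G)
        (F := |(Y : ℝ) ^ 6 - (X : ℝ) ^ 2|) (M := M) (κ₁ := 1 / (432 * K₀))
        (κ₂ := 1 / (2916 * K₀ ^ 6)) (s := 2) (d := 6) (t := 2 - 4 * l) h0 (by linarith) (by linarith)
        (by norm_num) hc1 (by positivity) (by positivity)
        (by rw [div_le_one (by positivity)]; linarith) (by positivity)
        (by
          rw [div_le_one (by positivity)]
          have : 1 ≤ K₀ ^ 6 := one_le_pow₀ hK₀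
          linarith) (by
          have h2 : (c : ℝ) ^ (2 : ℝ) = (c : ℝ) ^ (2 : ℕ) := by
            rw [← Real.rpow_natCast]; norm_num
          rw [h2]
          have h3 : (τ : ℝ) ^ 6 * |(Y : ℝ) ^ 6 - (X : ℝ) ^ 2| =
              108 * (((a * b * c : ℕ) : ℝ) * G) * (b * c) := by
            rw [hFa]
            have : (τ : ℝ) ^ 6 * (4 * (|(u : ℝ)| * |(v : ℝ)|)) =
              4 * (((τ : ℝ) ^ 3 * |(u : ℝ)|) * ((τ : ℝ) ^ 3 * |(v : ℝ)|)) := by ring
            rw [this, hau, hav]; push_cast; ring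
          have h4 : (τ : ℝ) ^ 6 * |(Y : ℝ) ^ 6 - (X : ℝ) ^ 2| ≤ 46656 * |(Y : ℝ) ^ 6 - (X : ℝ) ^ 2| := by
            apply mul_le_mul_of_nonneg_right _ (abs_nonneg _)
            calc (τ : ℝ) ^ 6 ≤ 6 ^ 6 := pow_le_pow_left₀ hτR0.le hτR6 6
              _ = 46656 := by norm_num
          rw [h3] at h4
          have h5 : 108 * (((a * b * c : ℕ) : ℝ) * G) * ((c / K₀) * c) ≤
              108 * (((a * b * c : ℕ) : ℝ) * G) * (b * c) := by
            apply mul_le_mul_of_nonneg_left _ (by positivity)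
            exact mul_le_mul_of_nonneg_right hcb' hcR.le
          have h6' : 108 * (((a * b * c : ℕ) : ℝ) * G) * ((c / K₀) * c) =
              46656 * (1 / (432 * K₀) * (((a * b * c : ℕ) : ℝ) * G * (c : ℝ) ^ 2)) := by
            field_simp; norm_num
          linarith) hMl (by ring)
      have e1 : (1 : ℝ) - 1 / ((6 : ℕ) : ℝ) - 1 / ((2 : ℕ) : ℝ) - l = 1 / 3 - l := by push_cast; ring
      rw [e1]
      unfold P
      have hGl : (G : ℝ) ≤ (G : ℝ) ^ l * (8 * (c : ℝ) ^ (1 - l)) := by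
        have h2 : (G : ℝ) = (G : ℝ) ^ l * (G : ℝ) ^ (1 - l) := by
          rw [← Real.rpow_add hGR0, add_sub_cancel, Real.rpow_one]
        nth_rewrite 1 [h2]
        apply mul_le_mul_of_nonneg_left _ (by positivity)
        calc (G : ℝ) ^ (1 - l) ≤ (8 * (c : ℝ)) ^ (1 - l) :=
              Real.rpow_le_rpow hGR0.le hG8 (by linarith)
          _ = 8 ^ (1 - l) * (c : ℝ) ^ (1 - l) := Real.mul_rpow (by norm_num) hcR.le
          _ ≤ 8 ^ (1 : ℝ) * (c : ℝ) ^ (1 - l) :=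
              mul_le_mul_of_nonneg_right
                (Real.rpow_le_rpow_of_exponent_le (by norm_num) (by linarith)) (by positivity)
          _ = _ := by rw [Real.rpow_one]
      have e7 : (c : ℝ) ^ (2 - 4 * l) = (c : ℝ) ^ (1 - l) * (c : ℝ) ^ (1 - 3 * l) := by
        rw [← Real.rpow_add hcR]
        congr 1; ring
      rw [Real.mul_rpow hA0.le hGR0.le, e7] at hn
      set A := ((a * b * c : ℕ) : ℝ) ^ l with hA
      have hA0' : 0 < A := by positivity
      have hc3 : 0 < (c : ℝ) ^ (1 - 3 * l) := by positivity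
      calc ((6 * G : ℕ) : ℝ) * (A * (c : ℝ) ^ (1 - 3 * l))
          = 6 * G * (A * (c : ℝ) ^ (1 - 3 * l)) := by push_cast; ring
        _ ≤ 6 * ((G : ℝ) ^ l * (8 * (c : ℝ) ^ (1 - l))) * (A * (c : ℝ) ^ (1 - 3 * l)) := by
            apply mul_le_mul_of_nonneg_right _ (by positivity)
            exact mul_le_mul_of_nonneg_left hGl (by norm_num)
        _ = 48 * (432 * K₀) * (2916 * K₀ ^ 6) * (1 / (432 * K₀) * (1 / (2916 * K₀ ^ 6)) * (A * (G : ℝ) ^ l *
              ((c : ℝ) ^ (1 - l) * (c : ℝ) ^ (1 - 3 * l)))) := by field_simp; ring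
        _ ≤ _ := mul_le_mul_of_nonneg_left hn (by positivity)
  · have h1 := pow_pos hcR 6
    have h2 : 1 ≤ K₀ ^ 6 := one_le_pow₀ hK₀
    refine hMu.trans ?_
    apply mul_le_mul_of_nonneg_right _ h1.le
    nlinarith

end Pool.Agent.N757.SC
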